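import Pool.Agent.Q80.ZM.Glo2

/-!
Maxima, zeros, and the mass near the zeros.
-/

set_option autoImplicit false

open Complex Filter Topology Set MeasureTheory Metric
open scoped ENNReal

namespace Pool.Agent.Q80.ZM

open Q97.MM

lemma zeta_an {y d : ℝ} (hd : d ≤ 1 / 4) : AnalyticOnNhd ℂ riemannZeta (closedBall (cp y) d) := by
  have hd' : DifferentiableOn ℂ riemannZeta {1}ᶜ := fun s hs =>
    (differentiableAt_riemannZeta hs).differentiableWithinAt
  have ha := hd'.analyticOnNhd isOpen_compl_singleton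
  intro s hs
  apply ha s
  intro hc
  rw [mem_singleton_iff] at hc
  have h1 := (cp_re_im hs).1
  rw [hc, one_re] at h1
  have := abs_le.1 h1
  linarith

/-- the maximum of `|ζ|` over the disc -/
noncomputable def Mx (A T y : ℝ) : ℝ :=
  sSup ((fun s => ‖riemannZeta s‖) '' closedBall (cp y) (A / Real.log T))

lemma Mx_att {A T y : ℝ} (h0 : 0 ≤ A / Real.log T) (h1 : A / Real.log T ≤ 1 / 4) :
    ∃ s ∈ closedBall (cp y) (A / Real.log T), Mx A T y = ‖riemannZeta s‖ ∧
      ∀ z ∈ closedBall (cp y) (A / Real.log T), ‖riemannZeta z‖ ≤ Mx A T y := by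
  have hc := (isCompact_closedBall (cp y) (A / Real.log T)).image_of_continuousOn
    (zeta_an h1).continuousOn.norm
  have hne : ((fun s => ‖riemannZeta s‖) '' closedBall (cp y) (A / Real.log T)).Nonempty :=
    ⟨_, mem_image_of_mem _ (mem_closedBall_self h0)⟩
  obtain ⟨s, hs, hs'⟩ := hc.sSup_mem hne
  exact ⟨s, hs, hs'.symm, fun z hz => le_csSup hc.bddAbove (mem_image_of_mem _ hz)⟩

theorem part1 {k : ℕ} (hk : 1 ≤ k) {A B : ℝ} (hA : 0 < A) (hB : 1 < B) :
    ∃ C : ℝ, 0 < C ∧ ∀ᶠ T : ℝ in atTop, ∀ U : ℝ, Adm T U →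
      ∫⁻ y, ENNReal.ofReal (B ^ (zc riemannZeta (closedBall (cp y) (A / Real.log T))) *
        Mx A T y ^ (2 * k) * wt T U y) ≤ ENNReal.ofReal (C * JJ k T U (1 / 2)) := by
  set A' := (2 * B + 1) * A with hA'
  have hA'0 : 0 < A' := by positivity
  obtain ⟨C, hC, hC'⟩ := maj_int k hA'0
  have hl := (log_div_tendsto A').eventually (gt_mem_nhds (show (0 : ℝ) < 1 / 8 by norm_num))
  have hL := Real.tendsto_log_atTop.eventually_ge_atTop (1 + 8 * A')
  refine ⟨C, hC, ?_⟩
  filter_upwards [hC', hl, hL] with T h1 h2 h3 U h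
  refine le_trans (lintegral_mono fun y => ENNReal.ofReal_le_ofReal ?_) (h1 U h)
  have hL1 := h.log
  have hr0 : 0 < A / Real.log T := by positivity
  have hr0' : 0 < A' / Real.log T := by positivity
  rw [abs_of_pos hr0'] at h2
  have e1 : (2 * B + 1) * (A / Real.log T) = A' / Real.log T := by rw [hA']; ring
  have hAA : A / Real.log T ≤ A' / Real.log T := by
    rw [← e1]; nlinarith
  have hL2 : 8 * A' ≤ Real.log T ^ 2 := by nlinarith
  obtain ⟨s, hs, hs1, -⟩ := Mx_att (A := A) (T := T) (y := y) hr0.le (by linarith)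
  obtain ⟨s', hs', hs1', hmax⟩ := Mx_att (A := A') (T := T) (y := y) hr0'.le (by linarith)
  have key := zeros_sup (f := riemannZeta) (c := cp y) (s₀ := s) (r := A / Real.log T) (B := B)
    (M := Mx A' T y) hr0 hB (by rw [e1]; exact zeta_an (by linarith))
    (by rw [e1]; exact hmax) hs
  set n := zc riemannZeta (closedBall (cp y) (A / Real.log T)) with hn
  rw [← hs1] at key
  have hM0 : 0 ≤ Mx A T y := by rw [hs1]; exact norm_nonneg _
  have h4 := maj_bd k hA'0 h h2.le hL2 (y := y) (t := y) hs' (by rw [sub_self, abs_zero]; exact hr0'.le)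
  rw [← hs1'] at h4
  have h5 : B ^ n ≤ (B ^ n) ^ (2 * k) := le_self_pow₀ (one_le_pow₀ hB.le) (by omega)
  have hw := (wt_pos T U y).le
  calc B ^ n * Mx A T y ^ (2 * k) * wt T U y
      ≤ (B ^ n) ^ (2 * k) * Mx A T y ^ (2 * k) * wt T U y := by gcongr
    _ = (B ^ n * Mx A T y) ^ (2 * k) * wt T U y := by rw [mul_pow]
    _ ≤ Mx A' T y ^ (2 * k) * wt T U y := by
        apply mul_le_mul_of_nonneg_right _ hw
        exact pow_le_pow_left₀ (by positivity) key _
    _ ≤ _ := h4

lemma NZ_eq (d : ℝ) : NZ riemannZeta d = NZ Z1 d := by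
  have h : ∀ ρ : ℂ, riemannZeta ρ = 0 ↔ Z1 ρ = 0 := by
    intro ρ
    rcases eq_or_ne ρ 1 with rfl | h
    · rw [Z1_one]
      simp [riemannZeta_one_ne_zero]
    · rw [Z1_of_ne h, mul_eq_zero, sub_eq_zero]
      simp [h]
  unfold NZ
  simp only [h]

lemma NZ_closed {d : ℝ} (hd : 0 ≤ d) : IsClosed (NZ riemannZeta d) := by
  rw [NZ_eq]
  have hZ : IsClosed {ρ : ℂ | Z1 ρ = 0} :=
    isClosed_eq Z1_differentiable.continuous continuous_const
  have e := hZ.cthickening_eq_biUnion_closedBall hd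
  have e2 : NZ Z1 d = cp ⁻¹' (cthickening d {ρ : ℂ | Z1 ρ = 0}) := by
    ext t
    rw [e, mem_preimage, mem_iUnion₂]
    unfold NZ
    constructor
    · rintro ⟨ρ, h1, h2⟩
      exact ⟨ρ, h1, by rw [mem_closedBall, dist_eq_norm]; exact h2⟩
    · rintro ⟨ρ, h1, h2⟩
      refine ⟨ρ, h1, ?_⟩
      rw [mem_closedBall, dist_eq_norm] at h2
      exact h2
  rw [e2]
  exact isClosed_cthickening.preimage cp_continuous

/-- averaging over short intervals -/
lemma avg_swap {g : ℝ → ℝ≥0∞} (hg : Measurable g) {r : ℝ} (hr : 0 < r) :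
    ∫⁻ y, ∫⁻ t in Icc (y - r) (y + r), g t = ENNReal.ofReal (2 * r) * ∫⁻ t, g t := by
  have e1 : ∀ y, ∫⁻ t in Icc (y - r) (y + r), g t =
      ∫⁻ t, (Icc (y - r) (y + r)).indicator g t := fun y =>
    (lintegral_indicator measurableSet_Icc _).symm
  simp only [e1]
  have e2 : ∀ y t, (Icc (y - r) (y + r)).indicator g t = (Icc (t - r) (t + r)).indicator 1 y * g t := by
    intro y t
    by_cases h : t ∈ Icc (y - r) (y + r)
    · have h' : y ∈ Icc (t - r) (t + r) := ⟨by linarith [h.2], by linarith [h.1]⟩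
      rw [indicator_of_mem h, indicator_of_mem h']
      simp
    · have h' : y ∉ Icc (t - r) (t + r) := fun h' => h ⟨by linarith [h'.2], by linarith [h'.1]⟩
      rw [indicator_of_notMem h, indicator_of_notMem h', zero_mul]
  have hm : Measurable (Function.uncurry fun (y t : ℝ) => (Icc (y - r) (y + r)).indicator g t) := by
    have e3 : (Function.uncurry fun (y t : ℝ) => (Icc (y - r) (y + r)).indicator g t) =
        {p : ℝ × ℝ | p.2 ∈ Icc (p.1 - r) (p.1 + r)}.indicator fun p => g p.2 := by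
      ext p
      obtain ⟨y, t⟩ := p
      simp only [Function.uncurry, indicator_apply, mem_setOf_eq]
    rw [e3]
    refine (hg.comp measurable_snd).indicator ?_
    have : {p : ℝ × ℝ | p.2 ∈ Icc (p.1 - r) (p.1 + r)} =
        {p : ℝ × ℝ | p.1 - r ≤ p.2} ∩ {p : ℝ × ℝ | p.2 ≤ p.1 + r} := by
      ext p; simp
    rw [this]
    exact (measurableSet_le (by fun_prop) (by fun_prop)).inter
      (measurableSet_le (by fun_prop) (by fun_prop))
  rw [lintegral_lintegral_swap hm.aemeasurable]
  simp only [e2]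
  have e4 : ∀ t, ∫⁻ y, (Icc (t - r) (t + r)).indicator 1 y * g t = ENNReal.ofReal (2 * r) * g t := by
    intro t
    rw [lintegral_mul_const _ (measurable_one.indicator measurableSet_Icc),
      lintegral_indicator_one measurableSet_Icc, Real.volume_Icc]
    congr 2
    ring
  simp only [e4]
  rw [lintegral_const_mul _ hg]

theorem part4 {k : ℕ} (hk : 1 ≤ k) {A : ℝ} (hA : 0 < A) :
    ∃ C : ℝ, 0 < C ∧ ∀ᶠ T : ℝ in atTop, ∀ U : ℝ, Adm T U → ∀ δ : ℝ, 0 < δ → δ ≤ 1 →
      ∫⁻ t, (NZ riemannZeta (δ * (A / Real.log T))).indicator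
        (fun t => ENNReal.ofReal (‖riemannZeta (cp t)‖ ^ (2 * k) * wt T U t)) t ≤
        ENNReal.ofReal (C * δ ^ (2 * k + 1) * JJ k T U (1 / 2)) := by
  set A' := 65 * A with hA'
  have hA'0 : 0 < A' := by positivity
  obtain ⟨C, hC, hC'⟩ := maj_int k hA'0
  have hl := (log_div_tendsto A').eventually (gt_mem_nhds (show (0 : ℝ) < 1 / 8 by norm_num))
  have hL := Real.tendsto_log_atTop.eventually_ge_atTop (1 + 8 * A')
  refine ⟨C, hC, ?_⟩
  filter_upwards [hC', hl, hL] with T h1 h2 h3 U h δ hδ hδ1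
  have hL1 := h.log
  set r := A / Real.log T with hr
  have hr0 : 0 < r := by positivity
  have hr0' : 0 < A' / Real.log T := by positivity
  rw [abs_of_pos hr0'] at h2
  have e1 : 65 * r = A' / Real.log T := by rw [hA']; ring
  have hL2 : 8 * A' ≤ Real.log T ^ 2 := by nlinarith
  have hzm : Measurable fun t : ℝ => ‖riemannZeta (cp t)‖ := by
    have : Continuous fun t : ℝ => riemannZeta (cp t) := by
      rw [continuous_iff_continuousAt]
      intro t
      exact ContinuousAt.comp (f := cp) (g := riemannZeta)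
        ((zeta_an (y := t) (d := 1 / 4) le_rfl) (cp t) (mem_closedBall_self (by norm_num))).continuousAt
        cp_continuous.continuousAt
    exact this.norm.measurable
  have hwc : Continuous (wt T U) := by unfold wt; fun_prop
  have hNZ := (NZ_closed (d := δ * r) (by positivity)).measurableSet
  have hgm : Measurable ((NZ riemannZeta (δ * r)).indicator
        (fun t => ENNReal.ofReal (‖riemannZeta (cp t)‖ ^ (2 * k) * wt T U t))) :=
    (((hzm.pow_const _).mul hwc.measurable).ennreal_ofReal).indicator hNZ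
  have hsw := avg_swap hgm hr0
  have hin : ∀ y, ∫⁻ t in Icc (y - r) (y + r), (NZ riemannZeta (δ * r)).indicator
        (fun t => ENNReal.ofReal (‖riemannZeta (cp t)‖ ^ (2 * k) * wt T U t)) t ≤
        ENNReal.ofReal (2 * r * δ ^ (2 * k + 1)) * ENNReal.ofReal (maj k A' T U y) := by
    intro y
    obtain ⟨s', hs', hs1', hmax⟩ := Mx_att (A := A') (T := T) (y := y) hr0'.le (by linarith)
    obtain ⟨t', ht', htmax⟩ := (isCompact_Icc (a := y - r) (b := y + r)).exists_isMaxOn
      ⟨y, by constructor <;> linarith⟩ hwc.continuousOn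
    have hloc := near_local (f := riemannZeta) (y := y) (r := r) (δ := δ) (M := Mx A' T y) hk hr0
      hδ hδ1 (by rw [e1]; exact zeta_an (by linarith)) (by rw [e1]; exact hmax)
    have hM0 : 0 ≤ Mx A' T y := by rw [hs1']; exact norm_nonneg _
    have hbd := maj_bd k hA'0 h h2.le hL2 (y := y) (t := t') hs' (by
      rw [← e1, abs_le]
      constructor <;> linarith [ht'.1, ht'.2])
    rw [← hs1'] at hbd
    calc ∫⁻ t in Icc (y - r) (y + r), (NZ riemannZeta (δ * r)).indicator
          (fun t => ENNReal.ofReal (‖riemannZeta (cp t)‖ ^ (2 * k) * wt T U t)) t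
        ≤ ∫⁻ t in Icc (y - r) (y + r), (NZ riemannZeta (δ * r)).indicator
          (fun t => ENNReal.ofReal (‖riemannZeta (cp t)‖ ^ (2 * k))) t *
            ENNReal.ofReal (wt T U t') := by
          refine setLIntegral_mono' measurableSet_Icc fun t ht => ?_
          by_cases hN : t ∈ NZ riemannZeta (δ * r)
          · rw [indicator_of_mem hN, indicator_of_mem hN, ← ENNReal.ofReal_mul (by positivity)]
            apply ENNReal.ofReal_le_ofReal
            apply mul_le_mul_of_nonneg_left _ (by positivity)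
            exact htmax ht
          · rw [indicator_of_notMem hN]
            exact zero_le
      _ = (∫⁻ t in Icc (y - r) (y + r), (NZ riemannZeta (δ * r)).indicator
          (fun t => ENNReal.ofReal (‖riemannZeta (cp t)‖ ^ (2 * k))) t) *
            ENNReal.ofReal (wt T U t') :=
          lintegral_mul_const _ (((hzm.pow_const _).ennreal_ofReal).indicator hNZ)
      _ ≤ ENNReal.ofReal (2 * r * δ ^ (2 * k + 1) * Mx A' T y ^ (2 * k)) *
            ENNReal.ofReal (wt T U t') := by gcongr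
      _ = ENNReal.ofReal (2 * r * δ ^ (2 * k + 1)) *
            ENNReal.ofReal (Mx A' T y ^ (2 * k) * wt T U t') := by
          rw [← ENNReal.ofReal_mul (by positivity), ← ENNReal.ofReal_mul (by positivity)]
          congr 1
          ring
      _ ≤ _ := by gcongr
  have h4 : ENNReal.ofReal (2 * r) * ∫⁻ t, (NZ riemannZeta (δ * r)).indicator
        (fun t => ENNReal.ofReal (‖riemannZeta (cp t)‖ ^ (2 * k) * wt T U t)) t ≤
        ENNReal.ofReal (2 * r) * ENNReal.ofReal (C * δ ^ (2 * k + 1) * JJ k T U (1 / 2)) := by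
    rw [← hsw]
    calc _ ≤ ∫⁻ y, ENNReal.ofReal (2 * r * δ ^ (2 * k + 1)) * ENNReal.ofReal (maj k A' T U y) :=
          lintegral_mono hin
      _ = ENNReal.ofReal (2 * r * δ ^ (2 * k + 1)) * ∫⁻ y, ENNReal.ofReal (maj k A' T U y) := by
          rw [lintegral_const_mul' _ _ ENNReal.ofReal_ne_top]
      _ ≤ ENNReal.ofReal (2 * r * δ ^ (2 * k + 1)) * ENNReal.ofReal (C * JJ k T U (1 / 2)) := by
          gcongr
          exact h1 U h
      _ = _ := by
          have hJ0 := JJ_nonneg k T U (1 / 2)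
          rw [← ENNReal.ofReal_mul (by positivity), ← ENNReal.ofReal_mul (by positivity)]
          congr 1
          ring
  have h5 : ENNReal.ofReal (2 * r) ≠ 0 := (ENNReal.ofReal_pos.2 (by positivity)).ne'
  exact (ENNReal.mul_le_mul_iff_right h5 ENNReal.ofReal_ne_top).1 h4

end Pool.Agent.Q80.ZM
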