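import Pool.Agent.Q80.ZM.Glo1

/-!
The local maxima of the zeta function.
-/

set_option autoImplicit false

open Complex Filter Topology Set MeasureTheory Metric
open scoped ENNReal

namespace Pool.Agent.Q80.ZM

open Q97.MM

/-- the moment on the critical line controls the normalising constants -/
theorem J_low (k : ℕ) : ∃ c : ℝ, 0 < c ∧ ∀ᶠ T : ℝ in atTop, ∀ U : ℝ, Adm T U →
    V0 k T U ≤ 2 * (T ^ (2 * k) * JJ k T U (1 / 2)) ∧ U ≤ c * JJ k T U (1 / 2) := by
  obtain ⟨c, hc, hc'⟩ := V0_lower k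
  refine ⟨2 / c, by positivity, ?_⟩
  filter_upwards [GJ k 0 (show (0 : ℝ) < 1 / 2 by norm_num)] with T h1 U h
  have h2 := (abs_le.1 (h1 U h)).2
  rw [Gn_zero k h] at h2
  have hV := V0_pos k h
  have h3 : 1 / 2 ≤ Jn k T U 0 := by linarith
  unfold Jn at h3
  rw [zero_div, add_zero, le_div_iff₀ hV] at h3
  have h4 : V0 k T U ≤ 2 * (T ^ (2 * k) * JJ k T U (1 / 2)) := by linarith
  refine ⟨h4, ?_⟩
  have hT : 0 < T := by linarith [h.1]
  have h5 := (hc' T U h).trans h4
  have hTk : 0 < T ^ (2 * k) := by positivity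
  have h6 : c * U ≤ 2 * JJ k T U (1 / 2) := by
    have h7 : T ^ (2 * k) * (c * U) ≤ T ^ (2 * k) * (2 * JJ k T U (1 / 2)) := by linarith
    exact le_of_mul_le_mul_left h7 hTk
  rw [div_mul_eq_mul_div, le_div_iff₀ hc]
  linarith

/-- the two summands of the majorant -/
noncomputable def tl (k : ℕ) (T U y : ℝ) : ℝ :=
  720 ^ (2 * k) * (1 + T) ^ (2 * (2 * k)) * Real.exp (-((1 / 6 * Real.log T) ^ 2 / 2)) *
    ((1 + |(y - T) / U|) ^ (2 * (2 * k)) * Real.exp (-(((y - T) / U) ^ 2 / 2)))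

/-- the majorant -/
noncomputable def maj (k : ℕ) (A T U y : ℝ) : ℝ :=
  (3 / T) ^ (2 * k) * Real.exp (2 * A + 4 * A ^ 2) *
    (2 / Real.pi * QQ (FF k T U) (2 * (A / Real.log T)) y) + tl k T U y

lemma tl_nonneg (k : ℕ) {T : ℝ} (hT : 0 ≤ T) (U y : ℝ) : 0 ≤ tl k T U y := by
  unfold tl; positivity

lemma tl_int (k : ℕ) {T U : ℝ} (hU : 0 < U) : Integrable (tl k T U) ∧
    ∫ y, tl k T U y = 720 ^ (2 * k) * (1 + T) ^ (2 * (2 * k)) *
      Real.exp (-((1 / 6 * Real.log T) ^ 2 / 2)) * (U * KK (2 * (2 * k))) := by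
  refine ⟨(scaled_integrable (2 * (2 * k)) T hU).const_mul _, ?_⟩
  unfold tl
  rw [integral_const_mul, scaled_integral _ T hU]

lemma cp_re_im {s : ℂ} {y d : ℝ} (hs : s ∈ closedBall (cp y) d) :
    |s.re - 1 / 2| ≤ d ∧ |s.im - y| ≤ d := by
  rw [mem_closedBall, dist_eq_norm] at hs
  have h1 := (Complex.abs_re_le_norm _).trans hs
  have h2 := (Complex.abs_im_le_norm _).trans hs
  have e1 : (s - cp y).re = s.re - 1 / 2 := by simp [cp]
  have e2 : (s - cp y).im = s.im - y := by simp [cp]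
  rw [e1] at h1
  rw [e2] at h2
  exact ⟨h1, h2⟩

/-- the pointwise bound -/
theorem maj_bd (k : ℕ) {A T U : ℝ} (hA : 0 < A) (h : Adm T U) (hr : A / Real.log T ≤ 1 / 8)
    (hL : 8 * A ≤ Real.log T ^ 2) {y t : ℝ} {s : ℂ} (hs : s ∈ closedBall (cp y) (A / Real.log T))
    (ht : |t - y| ≤ A / Real.log T) :
    ‖riemannZeta s‖ ^ (2 * k) * wt T U t ≤ maj k A T U y := by
  set L := Real.log T with hLdef
  set r := A / L with hrdef
  have hL1 : 1 ≤ L := h.log
  have hT : 3 ≤ T := h.1
  have hU1 : 1 ≤ U := h.2.1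
  have hUL : U * L ≤ T := by
    have := h.2.2
    rwa [le_div_iff₀ (by linarith)] at this
  have hr0 : 0 < r := by positivity
  obtain ⟨hre, him⟩ := cp_re_im hs
  have hre' := abs_le.1 hre
  have him' := abs_le.1 him
  have ht' := abs_le.1 ht
  have hse : s = (s.re : ℂ) + s.im * I := (Complex.re_add_im s).symm
  have hs1 : s ≠ 1 := by
    intro hc
    rw [hc, one_re] at hre'
    linarith
  have hZ : ‖Z1 s‖ = ‖s - 1‖ * ‖riemannZeta s‖ := by rw [Z1_of_ne hs1, norm_mul]
  have hq : 0 ≤ (3 / T) ^ (2 * k) * Real.exp (2 * A + 4 * A ^ 2) *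
    (2 / Real.pi * QQ (FF k T U) (2 * r) y) := by
    have := QQ_nonneg (FF k T U) (2 * r) y
    positivity
  have htl := tl_nonneg k (T := T) (by linarith) U y
  unfold maj
  rw [← hLdef, ← hrdef]
  rcases le_or_gt |y - T| (U * L / 2) with hy | hy
  · -- main range
    have hy' := abs_le.1 hy
    have h1 : T / 3 ≤ ‖s - 1‖ := by
      have h2 := Complex.abs_im_le_norm (s - 1)
      rw [sub_im, one_im, sub_zero] at h2
      have h3 : T / 3 ≤ s.im := by linarith
      exact h3.trans ((le_abs_self _).trans h2)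
    have h2 : ‖riemannZeta s‖ ≤ 3 / T * ‖Z1 s‖ := by
      rw [hZ]
      have h3 : ‖riemannZeta s‖ * 1 ≤ ‖riemannZeta s‖ * (3 / T * ‖s - 1‖) := by
        apply mul_le_mul_of_nonneg_left _ (norm_nonneg _)
        rw [div_mul_eq_mul_div, le_div_iff₀ (by linarith)]
        linarith
      linarith
    have h3 : wt T U t ≤ Real.exp (2 * A + 4 * A ^ 2) * wt T U s.im := by
      unfold wt
      rw [← Real.exp_add]
      apply Real.exp_le_exp.2
      have h4 : (s.im - T) ^ 2 - (t - T) ^ 2 ≤ 4 * r * (U * L / 2 + r) := by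
        have e1 : (s.im - T) ^ 2 - (t - T) ^ 2 = (s.im - t) * ((s.im - T) + (t - T)) := by ring
        rw [e1]
        have h5 : |s.im - t| ≤ 2 * r := by
          rw [abs_le]; constructor <;> linarith
        have h6 : |(s.im - T) + (t - T)| ≤ 2 * (U * L / 2 + r) := by
          rw [abs_le]; constructor <;> linarith
        calc (s.im - t) * ((s.im - T) + (t - T)) ≤ |(s.im - t) * ((s.im - T) + (t - T))| :=
              le_abs_self _
          _ = |s.im - t| * |(s.im - T) + (t - T)| := abs_mul _ _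
          _ ≤ 2 * r * (2 * (U * L / 2 + r)) := by gcongr
          _ = _ := by ring
      have h7 : 4 * r * (U * L / 2 + r) ≤ (2 * A + 4 * A ^ 2) * U ^ 2 := by
        have e2 : r * L = A := by rw [hrdef]; field_simp
        have e3 : 4 * r * (U * L / 2 + r) = 2 * U * A + 4 * r ^ 2 := by
          calc 4 * r * (U * L / 2 + r) = 2 * U * (r * L) + 4 * r ^ 2 := by ring
            _ = _ := by rw [e2]
        rw [e3]
        have h8 : r ≤ A := by
          rw [hrdef]; exact div_le_self hA.le hL1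
        have h9 : r ^ 2 ≤ A ^ 2 := pow_le_pow_left₀ hr0.le h8 2
        have h10 : U ≤ U ^ 2 := by nlinarith
        have h11 : (1 : ℝ) ≤ U ^ 2 := by nlinarith
        nlinarith [sq_nonneg A, mul_pos hA hA]
      have h12 : ((s.im - T) / U) ^ 2 - ((t - T) / U) ^ 2 ≤ 2 * A + 4 * A ^ 2 := by
        rw [div_pow, div_pow, ← sub_div, div_le_iff₀ (by positivity)]
        linarith
      linarith
    have h4 : ‖Z1 s‖ ^ (2 * k) * wt T U s.im ≤ ‖FF k T U s‖ ^ 2 := by
      rw [hse, FF_sq]
      have e1 : ((s.re : ℂ) + s.im * I).im = s.im := by simp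
      rw [e1]
      have h5 : 1 ≤ Real.exp ((s.re - 1 / 2) ^ 2 / U ^ 2) := Real.one_le_exp (by positivity)
      have h6 : 0 ≤ ‖Z1 ((s.re : ℂ) + s.im * I)‖ ^ (2 * k) * wt T U s.im :=
        mul_nonneg (by positivity) (wt_pos _ _ _).le
      nlinarith
    have h5 := sup_le (FF_differentiable k T U) (ρ := 2 * r) (y := y) (z := s) (by positivity)
      (by
        have : 2 * r / 2 = r := by ring
        rwa [this])
    calc ‖riemannZeta s‖ ^ (2 * k) * wt T U t
        ≤ (3 / T * ‖Z1 s‖) ^ (2 * k) * (Real.exp (2 * A + 4 * A ^ 2) * wt T U s.im) := by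
          apply mul_le_mul _ h3 (wt_pos _ _ _).le (by positivity)
          exact pow_le_pow_left₀ (norm_nonneg _) h2 _
      _ = (3 / T) ^ (2 * k) * Real.exp (2 * A + 4 * A ^ 2) *
            (‖Z1 s‖ ^ (2 * k) * wt T U s.im) := by rw [mul_pow]; ring
      _ ≤ (3 / T) ^ (2 * k) * Real.exp (2 * A + 4 * A ^ 2) *
            (2 / Real.pi * QQ (FF k T U) (2 * r) y) := by
          apply mul_le_mul_of_nonneg_left (h4.trans h5) (by positivity)
      _ ≤ _ := by linarith
  · -- tail
    have hULL : L ≤ U * L := by nlinarith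
    have h1 : 4 * r ≤ |y - T| := by
      have h2 : r ≤ L / 8 := by
        rw [hrdef, div_le_iff₀ (by linarith)]
        nlinarith
      linarith
    have h2 : ‖riemannZeta s‖ ≤ 720 * (1 + |y|) ^ 2 := by
      have h3 : 1 / 4 ≤ ‖s - 1‖ := by
        have h4 := Complex.abs_re_le_norm (s - 1)
        rw [sub_re, one_re] at h4
        have h5 : 1 / 4 ≤ |s.re - 1| := by
          rw [abs_of_neg (by linarith)]
          linarith
        linarith
      have h4 := Z1_growth (x := s.re) (y := s.im) (by linarith) (by linarith)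
      rw [← hse, hZ] at h4
      have h5 : 1 + |s.im| ≤ 2 * (1 + |y|) := by
        have h6 := abs_add_le (s.im - y) y
        rw [sub_add_cancel] at h6
        linarith [abs_nonneg y]
      have h6 : (1 + |s.im|) ^ 2 ≤ (2 * (1 + |y|)) ^ 2 := pow_le_pow_left₀ (by positivity) h5 2
      have h7 : 1 / 4 * ‖riemannZeta s‖ ≤ ‖s - 1‖ * ‖riemannZeta s‖ :=
        mul_le_mul_of_nonneg_right h3 (norm_nonneg _)
      nlinarith
    have h3 := abs_le_scaled (T := T) (U := U) (by linarith) (by linarith) h.le y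
    set X := (y - T) / U with hX
    have hXa : |X| = |y - T| / U := by rw [hX, abs_div, abs_of_pos (by linarith : 0 < U)]
    have hX1 : L / 2 ≤ |X| := by
      rw [hXa, le_div_iff₀ (by linarith)]
      linarith
    have h4 : wt T U t ≤ Real.exp (-((1 / 6 * L) ^ 2 / 2)) * Real.exp (-(X ^ 2 / 2)) := by
      unfold wt
      rw [← Real.exp_add]
      apply Real.exp_le_exp.2
      have h5 : 3 / 4 * |X| ≤ |(t - T) / U| := by
        rw [hXa, abs_div, abs_of_pos (by linarith : 0 < U), ← mul_div_assoc]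
        apply div_le_div_of_nonneg_right _ (by linarith)
        have h6 := abs_add_le (y - t) (t - T)
        rw [sub_add_sub_cancel, abs_sub_comm y t] at h6
        linarith
      have h6 : (3 / 4 * |X|) ^ 2 ≤ ((t - T) / U) ^ 2 := by
        rw [← sq_abs ((t - T) / U)]
        exact pow_le_pow_left₀ (by positivity) h5 2
      have h7 : (L / 2) ^ 2 ≤ |X| ^ 2 := pow_le_pow_left₀ (by positivity) hX1 2
      rw [mul_pow, sq_abs] at h6
      rw [sq_abs] at h7
      nlinarith
    have h5 : ‖riemannZeta s‖ ^ (2 * k) ≤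
        720 ^ (2 * k) * ((1 + T) * (1 + |X|)) ^ (2 * (2 * k)) := by
      calc ‖riemannZeta s‖ ^ (2 * k) ≤ (720 * (1 + |y|) ^ 2) ^ (2 * k) :=
            pow_le_pow_left₀ (norm_nonneg _) h2 _
        _ = 720 ^ (2 * k) * (1 + |y|) ^ (2 * (2 * k)) := by rw [mul_pow, ← pow_mul]
        _ ≤ _ := by gcongr
    calc ‖riemannZeta s‖ ^ (2 * k) * wt T U t
        ≤ (720 ^ (2 * k) * ((1 + T) * (1 + |X|)) ^ (2 * (2 * k))) *
          (Real.exp (-((1 / 6 * L) ^ 2 / 2)) * Real.exp (-(X ^ 2 / 2))) := by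
          apply mul_le_mul h5 h4 (wt_pos _ _ _).le
          have : 0 ≤ T := by linarith
          positivity
      _ = tl k T U y := by
          unfold tl
          rw [← hX, ← hLdef, mul_pow (1 + T)]
          ring
      _ ≤ _ := by linarith

theorem maj_int (k : ℕ) {A : ℝ} (hA : 0 < A) : ∃ C : ℝ, 0 < C ∧ ∀ᶠ T : ℝ in atTop, ∀ U : ℝ,
    Adm T U → ∫⁻ y, ENNReal.ofReal (maj k A T U y) ≤ ENNReal.ofReal (C * JJ k T U (1 / 2)) := by
  obtain ⟨C, hC, hC'⟩ := V_le k (a := 2 * A) (by positivity)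
  obtain ⟨c, hc, hc'⟩ := J_low k
  have hKK := KK_nonneg (2 * (2 * k))
  have htt := (tail_tendsto (2 * (2 * k)) (η := 1 / 6) (by norm_num)).eventually
    (gt_mem_nhds (show (0 : ℝ) < 1 by norm_num))
  have hl := (log_div_tendsto (2 * A)).eventually (gt_mem_nhds (show (0 : ℝ) < 1 / 4 by norm_num))
  refine ⟨3 ^ (2 * k) * Real.exp (2 * A + 4 * A ^ 2) * (8 * C) +
    720 ^ (2 * k) * KK (2 * (2 * k)) * c, by positivity, ?_⟩
  filter_upwards [hC', hc', htt, hl] with T h1 h2 h3 h4 U h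
  set L := Real.log T with hLdef
  have hL1 : 1 ≤ L := h.log
  have hT : 3 ≤ T := h.1
  have hT0 : 0 < T := by linarith
  obtain ⟨hV, hJ⟩ := h2 U h
  have hU := h.pos
  have hp := Real.pi_pos
  have hr : 0 < 2 * (A / L) := by positivity
  have e2 : 2 * (A / L) = 2 * A / L := by ring
  rw [abs_of_nonneg (by positivity)] at h4
  obtain ⟨M, δ, hM, hδ, hbd⟩ := FF_bd k T h.pos
  have hQ := QQ_int (FF_differentiable k T U) (ρ := 2 * (A / L)) (B := C * V0 k T U) hr
    (fun x hx => by
      have hx' := abs_le.1 hx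
      rw [e2] at hx'
      exact ln_sq_integrable (FF_differentiable k T U) hδ hbd (by linarith) (by linarith))
    (fun x hx => h1 U h x (by rwa [← e2]))
  obtain ⟨ti, te⟩ := tl_int k (T := T) hU
  set c₁ := (3 / T) ^ (2 * k) * Real.exp (2 * A + 4 * A ^ 2) * (2 / Real.pi) with hc₁
  have hc₁0 : 0 ≤ c₁ := by positivity
  have e3 : ∀ y, maj k A T U y = c₁ * QQ (FF k T U) (2 * (A / L)) y + tl k T U y := by
    intro y
    unfold maj
    rw [hc₁]
    ring
  have hJ0 := JJ_nonneg k T U (1 / 2)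
  calc ∫⁻ y, ENNReal.ofReal (maj k A T U y)
      = ∫⁻ y, (ENNReal.ofReal c₁ * ENNReal.ofReal (QQ (FF k T U) (2 * (A / L)) y) +
          ENNReal.ofReal (tl k T U y)) := by
        refine lintegral_congr fun y => ?_
        rw [e3, ENNReal.ofReal_add (mul_nonneg hc₁0 (QQ_nonneg _ _ _)) (tl_nonneg k hT0.le U y),
          ENNReal.ofReal_mul hc₁0]
    _ = ENNReal.ofReal c₁ * (∫⁻ y, ENNReal.ofReal (QQ (FF k T U) (2 * (A / L)) y)) +
          ∫⁻ y, ENNReal.ofReal (tl k T U y) := by
        have mQ : Measurable fun y => ENNReal.ofReal (QQ (FF k T U) (2 * (A / L)) y) :=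
          (QQ_cont (FF_differentiable k T U).continuous _).measurable.ennreal_ofReal
        rw [lintegral_add_left (mQ.const_mul _), lintegral_const_mul _ mQ]
    _ ≤ ENNReal.ofReal c₁ * ENNReal.ofReal (2 * Real.pi * (C * V0 k T U)) +
          ENNReal.ofReal (720 ^ (2 * k) * (U * KK (2 * (2 * k)))) := by
        refine add_le_add (by gcongr) ?_
        rw [← ofReal_integral_eq_lintegral_ofReal ti
          (Eventually.of_forall fun y => tl_nonneg k hT0.le U y), te]
        apply ENNReal.ofReal_le_ofReal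
        have : 720 ^ (2 * k) * (1 + T) ^ (2 * (2 * k)) *
            Real.exp (-((1 / 6 * Real.log T) ^ 2 / 2)) * (U * KK (2 * (2 * k))) =
            720 ^ (2 * k) * ((1 + T) ^ (2 * (2 * k)) *
            Real.exp (-((1 / 6 * Real.log T) ^ 2 / 2))) * (U * KK (2 * (2 * k))) := by ring
        rw [this]
        have h5 : 720 ^ (2 * k) * ((1 + T) ^ (2 * (2 * k)) *
            Real.exp (-((1 / 6 * Real.log T) ^ 2 / 2))) ≤ 720 ^ (2 * k) * 1 :=
          mul_le_mul_of_nonneg_left h3.le (by positivity)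
        calc _ ≤ 720 ^ (2 * k) * 1 * (U * KK (2 * (2 * k))) :=
              mul_le_mul_of_nonneg_right h5 (by positivity)
          _ = _ := by ring
    _ = ENNReal.ofReal (c₁ * (2 * Real.pi * (C * V0 k T U)) +
          720 ^ (2 * k) * (U * KK (2 * (2 * k)))) := by
        have hV0 := (V0_pos k h).le
        rw [← ENNReal.ofReal_mul hc₁0, ← ENNReal.ofReal_add (by positivity) (by positivity)]
    _ ≤ _ := by
        apply ENNReal.ofReal_le_ofReal
        have h6 : c₁ * (2 * Real.pi * (C * V0 k T U)) ≤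
            3 ^ (2 * k) * Real.exp (2 * A + 4 * A ^ 2) * (8 * C) * JJ k T U (1 / 2) := by
          have h7 : c₁ * (2 * Real.pi * (C * V0 k T U)) ≤
              c₁ * (2 * Real.pi * (C * (2 * (T ^ (2 * k) * JJ k T U (1 / 2))))) := by gcongr
          refine h7.trans (le_of_eq ?_)
          rw [hc₁, div_pow]
          field_simp
          ring
        have h8 : 720 ^ (2 * k) * (U * KK (2 * (2 * k))) ≤
            720 ^ (2 * k) * KK (2 * (2 * k)) * c * JJ k T U (1 / 2) := by
          calc 720 ^ (2 * k) * (U * KK (2 * (2 * k)))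
              ≤ 720 ^ (2 * k) * ((c * JJ k T U (1 / 2)) * KK (2 * (2 * k))) := by gcongr
            _ = _ := by ring
        linarith

end Pool.Agent.Q80.ZM
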