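import Pool.Agent.Q80.ZM.Loc4

/-!
The mass near the zeros.
-/

set_option autoImplicit false

open Complex Filter Topology Set MeasureTheory Metric
open scoped ENNReal

namespace Pool.Agent.Q80.ZM

/-- the heights at distance at most `d` from a zero of `f` -/
def NZ (f : ℂ → ℂ) (d : ℝ) : Set ℝ := {t | ∃ ρ : ℂ, f ρ = 0 ∧ ‖cp t - ρ‖ ≤ d}

lemma cp_sub (t y : ℝ) : cp t - cp y = ((t - y : ℝ) : ℂ) * I := by
  unfold cp; push_cast; ring

lemma cp_dist (t y : ℝ) : ‖cp t - cp y‖ = |t - y| := by
  rw [cp_sub, norm_mul, Complex.norm_I, mul_one, Complex.norm_real, Real.norm_eq_abs]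

theorem near_local {f : ℂ → ℂ} {y r δ M : ℝ} {k : ℕ} (hk : 1 ≤ k) (hr : 0 < r) (hδ : 0 < δ)
    (hδ1 : δ ≤ 1)
    (hf : AnalyticOnNhd ℂ f (closedBall (cp y) (65 * r)))
    (hb : ∀ z ∈ closedBall (cp y) (65 * r), ‖f z‖ ≤ M) :
    ∫⁻ t in Icc (y - r) (y + r), (NZ f (δ * r)).indicator
      (fun t => ENNReal.ofReal (‖f (cp t)‖ ^ (2 * k))) t ≤
        ENNReal.ofReal (2 * r * δ ^ (2 * k + 1) * M ^ (2 * k)) := by
  classical
  have hM : 0 ≤ M := (norm_nonneg _).trans (hb (cp y) (mem_closedBall_self (by positivity)))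
  by_cases hz : ∀ t ∈ Icc (y - r) (y + r), f (cp t) = 0
  · have h0 : ∫⁻ t in Icc (y - r) (y + r), (NZ f (δ * r)).indicator
      (fun t => ENNReal.ofReal (‖f (cp t)‖ ^ (2 * k))) t = 0 := by
      rw [setLIntegral_congr_fun measurableSet_Icc (g := fun _ => 0)]
      · simp
      · intro t ht
        simp only [indicator_apply, hz t ht, norm_zero]
        rw [zero_pow (by omega)]
        simp
    rw [h0]
    exact zero_le
  · push Not at hz
    obtain ⟨t₁, ht₁, hft₁⟩ := hz
    have h13 : closedBall (cp y) (13 * r) ⊆ closedBall (cp y) (65 * r) :=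
      closedBall_subset_closedBall (by linarith)
    have ht₁' : cp t₁ ∈ closedBall (cp y) (13 * r) := by
      rw [mem_closedBall, dist_eq_norm, cp_dist, abs_le]
      constructor <;> linarith [ht₁.1, ht₁.2]
    obtain ⟨s₀, hs₀, hmax⟩ := (isCompact_closedBall (cp y) (13 * r)).exists_isMaxOn
      ⟨_, ht₁'⟩ (hf.continuousOn.mono h13).norm
    set M₁ := ‖f s₀‖ with hM₁
    have hle : ∀ z ∈ closedBall (cp y) (13 * r), ‖f z‖ ≤ M₁ := fun z hz => hmax hz
    have hM₁0 : 0 < M₁ := lt_of_lt_of_le (norm_pos_iff.2 hft₁) (hle _ ht₁')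
    have e65 : 5 * (13 * r) = 65 * r := by ring
    obtain ⟨S, hS, hScard⟩ := zeros_card (f := f) (c := cp y) (s₀ := s₀) (r := 13 * r) (M := M)
      (by positivity) (by rw [e65]; exact hf) (by rw [e65]; exact hb) hs₀
      (norm_pos_iff.1 hM₁0)
    have hpt : ∀ t ∈ Icc (y - r) (y + r), (NZ f (δ * r)).indicator
        (fun t => ENNReal.ofReal (‖f (cp t)‖ ^ (2 * k))) t ≤
        ∑ ρ ∈ S, (Icc (ρ.im - δ * r) (ρ.im + δ * r)).indicator
          (fun _ => ENNReal.ofReal ((δ * M₁) ^ (2 * k))) t := by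
      intro t ht
      by_cases hN : t ∈ NZ f (δ * r)
      · rw [indicator_of_mem hN]
        obtain ⟨ρ, hρ0, hρ⟩ := hN
        have hδr : δ * r ≤ r := by nlinarith
        have h1 : ‖ρ - cp y‖ ≤ 2 * r := by
          have h2 := norm_add_le (ρ - cp t) (cp t - cp y)
          rw [sub_add_sub_cancel, cp_dist, norm_sub_rev ρ (cp t)] at h2
          have h3 : |t - y| ≤ r := abs_le.2 ⟨by linarith [ht.1], by linarith [ht.2]⟩
          linarith
        have hρS : ρ ∈ S := by
          rw [hS]
          refine ⟨?_, hρ0⟩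
          rw [mem_closedBall, dist_eq_norm]
          linarith
        have h4 : |t - ρ.im| ≤ δ * r := by
          have h5 := Complex.abs_im_le_norm (cp t - ρ)
          have e1 : (cp t - ρ).im = t - ρ.im := by simp [cp]
          rw [e1] at h5
          exact h5.trans hρ
        have h6 := abs_le.1 h4
        have htm : t ∈ Icc (ρ.im - δ * r) (ρ.im + δ * r) := ⟨by linarith, by linarith⟩
        have hsub : ball ρ (8 * r) ⊆ closedBall (cp y) (13 * r) := by
          intro z hz
          rw [mem_ball, dist_eq_norm] at hz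
          rw [mem_closedBall, dist_eq_norm]
          have h2 := norm_add_le (z - ρ) (ρ - cp y)
          rw [sub_add_sub_cancel] at h2
          linarith
        have h7 := near_zero (f := f) (ρ := ρ) (s := cp t) (R := 8 * r) (M := M₁) (by positivity)
          (fun z hz => (hf z (h13 (hsub hz))).differentiableAt.differentiableWithinAt)
          (fun z hz => hle z (hsub hz)) hρ0 (by
            rw [mem_ball, dist_eq_norm]; linarith)
        have h8 : ‖f (cp t)‖ ≤ δ * M₁ := by
          refine h7.trans ?_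
          have h9 : M₁ / (8 * r) * ‖cp t - ρ‖ ≤ M₁ / (8 * r) * (δ * r) := by gcongr
          refine h9.trans ?_
          have e2 : M₁ / (8 * r) * (δ * r) = δ * M₁ / 8 := by field_simp
          rw [e2]
          have : 0 ≤ δ * M₁ := by positivity
          linarith
        refine le_trans ?_ (Finset.single_le_sum (f := fun ρ : ℂ =>
          (Icc (ρ.im - δ * r) (ρ.im + δ * r)).indicator
          (fun _ => ENNReal.ofReal ((δ * M₁) ^ (2 * k))) t) (fun _ _ => zero_le) hρS)
        simp only [indicator_of_mem htm]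
        apply ENNReal.ofReal_le_ofReal
        gcongr
      · rw [indicator_of_notMem hN]
        exact zero_le
    calc ∫⁻ t in Icc (y - r) (y + r), (NZ f (δ * r)).indicator
          (fun t => ENNReal.ofReal (‖f (cp t)‖ ^ (2 * k))) t
        ≤ ∫⁻ t in Icc (y - r) (y + r), ∑ ρ ∈ S, (Icc (ρ.im - δ * r) (ρ.im + δ * r)).indicator
          (fun _ => ENNReal.ofReal ((δ * M₁) ^ (2 * k))) t :=
          setLIntegral_mono' measurableSet_Icc hpt
      _ ≤ ∫⁻ t, ∑ ρ ∈ S, (Icc (ρ.im - δ * r) (ρ.im + δ * r)).indicator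
          (fun _ => ENNReal.ofReal ((δ * M₁) ^ (2 * k))) t := setLIntegral_le_lintegral _ _
      _ = ∑ ρ ∈ S, ENNReal.ofReal ((δ * M₁) ^ (2 * k)) * ENNReal.ofReal (2 * (δ * r)) := by
          rw [lintegral_finsetSum _ fun ρ _ => measurable_const.indicator measurableSet_Icc]
          refine Finset.sum_congr rfl fun ρ _ => ?_
          rw [lintegral_indicator_const measurableSet_Icc, Real.volume_Icc]
          congr 2
          ring
      _ = ENNReal.ofReal ((S.card : ℝ) * ((δ * M₁) ^ (2 * k) * (2 * (δ * r)))) := by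
          have q1 : (0 : ℝ) ≤ (δ * M₁) ^ (2 * k) := by positivity
          have q2 : (0 : ℝ) ≤ (S.card : ℝ) := by positivity
          rw [Finset.sum_const, nsmul_eq_mul, ← ENNReal.ofReal_mul q1, ENNReal.ofReal_mul q2,
            ENNReal.ofReal_natCast]
      _ ≤ _ := by
          apply ENNReal.ofReal_le_ofReal
          have h1 : (S.card : ℝ) ≤ (2 ^ S.card) ^ (2 * k) := by
            have h2 : (S.card : ℝ) ≤ 2 ^ S.card := by
              exact_mod_cast (Nat.lt_two_pow_self (n := S.card)).le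
            refine h2.trans ?_
            exact le_self_pow₀ (one_le_pow₀ (by norm_num)) (by omega)
          have h3 : ((2 : ℝ) ^ S.card * M₁) ^ (2 * k) ≤ M ^ (2 * k) := by gcongr
          calc (S.card : ℝ) * ((δ * M₁) ^ (2 * k) * (2 * (δ * r)))
              ≤ (2 ^ S.card) ^ (2 * k) * ((δ * M₁) ^ (2 * k) * (2 * (δ * r))) := by gcongr
            _ = 2 * r * δ ^ (2 * k + 1) * ((2 : ℝ) ^ S.card * M₁) ^ (2 * k) := by ring
            _ ≤ _ := by gcongr

end Pool.Agent.Q80.ZM
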