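import Pool.Agent.Q97.MM.Seq
import Pool.Agent.Q80.ZM.Loc5

/-!
Circle averages and square means over vertical lines.
-/

set_option autoImplicit false

open Complex Filter Topology Set MeasureTheory Metric
open scoped ENNReal

namespace Pool.Agent.Q80.ZM

open Q97.MM

/-- uniform bound for the square means near the critical line -/
theorem V_le (k : ℕ) {a : ℝ} (ha : 0 < a) : ∃ C : ℝ, 0 < C ∧ ∀ᶠ T : ℝ in atTop, ∀ U : ℝ, Adm T U →
    ∀ x : ℝ, |x - 1 / 2| ≤ a / Real.log T → VI (FF k T U) x ≤ C * V0 k T U := by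
  obtain ⟨C₁, h1, h1'⟩ := G_bdd k a
  obtain ⟨C₂, h2, h2'⟩ := G_bdd k (-a)
  have hl := (log_div_tendsto a).eventually (gt_mem_nhds (show (0 : ℝ) < 1 / 4 by norm_num))
  refine ⟨C₁ + C₂, by positivity, ?_⟩
  filter_upwards [h1', h2', hl] with T e1 e2 e3 U h x hx
  have hL := h.log
  have hV := V0_pos k h
  obtain ⟨M, δ, hM, hδ, hbd⟩ := FF_bd k T h.pos
  have haL : 0 ≤ a / Real.log T := by positivity
  rw [abs_of_nonneg haL] at e3
  have hx' := abs_le.1 hx
  have g1 := e1 U h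
  have g2 := e2 U h
  unfold Gn at g1 g2
  rw [div_le_iff₀ hV] at g1 g2
  have r0 := rep (FF_differentiable k T U) hδ hM hbd (c := 1 / 2) (x := x) (by norm_num)
    (by norm_num) (by linarith) (by linarith)
  have r1 := rep (FF_differentiable k T U) hδ hM hbd (c := 1 / 2) (x := 1 / 2 + a / Real.log T)
    (by norm_num) (by norm_num) (by linarith) (by linarith)
  have r2 := rep (FF_differentiable k T U) hδ hM hbd (c := 1 / 2) (x := 1 / 2 + -a / Real.log T)
    (by norm_num) (by norm_num) (by rw [neg_div]; linarith) (by rw [neg_div]; linarith)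
  have hpt : ∀ ξ : ℝ, Real.exp (4 * Real.pi * ξ * (x - 1 / 2)) * dens (FF k T U) (1 / 2) ξ ≤
      Real.exp (4 * Real.pi * ξ * (1 / 2 + a / Real.log T - 1 / 2)) * dens (FF k T U) (1 / 2) ξ +
      Real.exp (4 * Real.pi * ξ * (1 / 2 + -a / Real.log T - 1 / 2)) *
        dens (FF k T U) (1 / 2) ξ := by
    intro ξ
    rw [← add_mul]
    apply mul_le_mul_of_nonneg_right _ (dens_nonneg _ _ _)
    have hp := Real.pi_pos
    rcases le_total 0 ξ with hξ | hξ
    · have h3 : Real.exp (4 * Real.pi * ξ * (x - 1 / 2)) ≤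
          Real.exp (4 * Real.pi * ξ * (1 / 2 + a / Real.log T - 1 / 2)) := by
        apply Real.exp_le_exp.2
        apply mul_le_mul_of_nonneg_left _ (by positivity)
        linarith
      linarith [Real.exp_pos (4 * Real.pi * ξ * (1 / 2 + -a / Real.log T - 1 / 2))]
    · have h3 : Real.exp (4 * Real.pi * ξ * (x - 1 / 2)) ≤
          Real.exp (4 * Real.pi * ξ * (1 / 2 + -a / Real.log T - 1 / 2)) := by
        apply Real.exp_le_exp.2
        apply mul_le_mul_of_nonpos_left _ (mul_nonpos_of_nonneg_of_nonpos (by positivity) hξ)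
        rw [neg_div]
        linarith
      linarith [Real.exp_pos (4 * Real.pi * ξ * (1 / 2 + a / Real.log T - 1 / 2))]
  have h4 := integral_mono r0.1 (r1.1.add r2.1) hpt
  have h5 := integral_add r1.1 r2.1
  rw [r1.2, r2.2] at h5
  rw [r0.2] at h4
  have h6 : (∫ ξ, ((fun ξ => Real.exp (4 * Real.pi * ξ * (1 / 2 + a / Real.log T - 1 / 2)) *
      dens (FF k T U) (1 / 2) ξ) + fun ξ => Real.exp (4 * Real.pi * ξ *
      (1 / 2 + -a / Real.log T - 1 / 2)) * dens (FF k T U) (1 / 2) ξ) ξ) =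
      VI (FF k T U) (1 / 2 + a / Real.log T) + VI (FF k T U) (1 / 2 + -a / Real.log T) := h5
  linarith

/-- the circle integral of `‖F‖²` -/
noncomputable def QQ (F : ℂ → ℂ) (ρ y : ℝ) : ℝ :=
  ∫ θ in (0 : ℝ)..(2 * Real.pi), ‖F (circleMap (cp y) ρ θ)‖ ^ 2

lemma cp_continuous : Continuous cp := by
  unfold cp; fun_prop

lemma QQ_cont {F : ℂ → ℂ} (hF : Continuous F) (ρ : ℝ) : Continuous (QQ F ρ) := by
  unfold QQ
  apply intervalIntegral.continuous_parametric_intervalIntegral_of_continuous'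
  have h := cp_continuous
  unfold Function.uncurry
  unfold circleMap
  fun_prop

lemma QQ_nonneg (F : ℂ → ℂ) (ρ y : ℝ) : 0 ≤ QQ F ρ y :=
  intervalIntegral.integral_nonneg (by positivity) fun θ _ => by positivity

lemma cs_interval {g : ℝ → ℝ} (hg : Continuous g) :
    (∫ θ in (0 : ℝ)..(2 * Real.pi), g θ) ^ 2 ≤
      2 * Real.pi * ∫ θ in (0 : ℝ)..(2 * Real.pi), g θ ^ 2 := by
  set G := ∫ θ in (0 : ℝ)..(2 * Real.pi), g θ with hG
  set m := G / (2 * Real.pi) with hm
  have hp := Real.pi_pos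
  have h0 : 0 ≤ ∫ θ in (0 : ℝ)..(2 * Real.pi), (g θ - m) ^ 2 :=
    intervalIntegral.integral_nonneg (by positivity) fun θ _ => by positivity
  have e : ∫ θ in (0 : ℝ)..(2 * Real.pi), (g θ - m) ^ 2 =
      (∫ θ in (0 : ℝ)..(2 * Real.pi), g θ ^ 2) - 2 * m * G + 2 * Real.pi * m ^ 2 := by
    have e1 : ∀ θ, (g θ - m) ^ 2 = g θ ^ 2 - 2 * m * g θ + m ^ 2 := fun θ => by ring
    simp only [e1]
    have i1 : IntervalIntegrable (fun θ => g θ ^ 2) volume 0 (2 * Real.pi) :=
      (hg.pow 2).intervalIntegrable _ _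
    have i2 : IntervalIntegrable (fun θ => 2 * m * g θ) volume 0 (2 * Real.pi) :=
      (continuous_const.mul hg).intervalIntegrable _ _
    rw [intervalIntegral.integral_add (i1.sub i2) intervalIntegrable_const,
      intervalIntegral.integral_sub i1 i2, intervalIntegral.integral_const_mul,
      intervalIntegral.integral_const]
    simp only [smul_eq_mul, sub_zero]
    rw [← hG]
  rw [e] at h0
  have e2 : 2 * m * G - 2 * Real.pi * m ^ 2 = G ^ 2 / (2 * Real.pi) := by
    rw [hm]; field_simp; ring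
  have h1 : G ^ 2 / (2 * Real.pi) ≤ ∫ θ in (0 : ℝ)..(2 * Real.pi), g θ ^ 2 := by linarith
  rw [div_le_iff₀ (by positivity)] at h1
  linarith

/-- the maximum over the half disc is bounded by the circle integral -/
theorem sup_le {F : ℂ → ℂ} (hF : Differentiable ℂ F) {ρ y : ℝ} (hρ : 0 < ρ) {z : ℂ}
    (hz : z ∈ closedBall (cp y) (ρ / 2)) : ‖F z‖ ^ 2 ≤ 2 / Real.pi * QQ F ρ y := by
  have hz' : z ∈ ball (cp y) ρ := by
    rw [mem_closedBall] at hz
    rw [mem_ball]
    linarith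
  have hp := Real.pi_pos
  have hc := (hF.diffContOnCl (s := ball (cp y) ρ)).circleIntegral_sub_inv_smul hz'
  have hcont : Continuous fun θ : ℝ => ‖F (circleMap (cp y) ρ θ)‖ :=
    (hF.continuous.comp (continuous_circleMap _ _)).norm
  have h1 : ‖∮ w in C(cp y, ρ), (w - z)⁻¹ • F w‖ ≤
      ∫ θ in (0 : ℝ)..(2 * Real.pi), 2 * ‖F (circleMap (cp y) ρ θ)‖ := by
    unfold circleIntegral
    refine intervalIntegral.norm_integral_le_of_norm_le (by positivity)
      (Eventually.of_forall fun θ _ => ?_) ((continuous_const.mul hcont).intervalIntegrable _ _)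
    rw [norm_smul, norm_smul, deriv_circleMap, norm_mul, norm_circleMap_zero, Complex.norm_I,
      mul_one, abs_of_pos hρ, norm_inv]
    have h2 : ρ / 2 ≤ ‖circleMap (cp y) ρ θ - z‖ := by
      have h3 : ‖circleMap (cp y) ρ θ - cp y‖ = ρ := by
        rw [← dist_eq_norm]
        have := circleMap_mem_sphere (cp y) hρ.le θ
        rwa [mem_sphere] at this
      rw [mem_closedBall, dist_eq_norm] at hz
      have h4 := norm_sub_norm_le (circleMap (cp y) ρ θ - cp y) (z - cp y)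
      rw [sub_sub_sub_cancel_right] at h4
      linarith
    have h5 : ρ * ‖circleMap (cp y) ρ θ - z‖⁻¹ ≤ 2 := by
      rw [← div_eq_mul_inv, div_le_iff₀ (by linarith)]
      linarith
    calc ρ * (‖circleMap (cp y) ρ θ - z‖⁻¹ * ‖F (circleMap (cp y) ρ θ)‖)
        = (ρ * ‖circleMap (cp y) ρ θ - z‖⁻¹) * ‖F (circleMap (cp y) ρ θ)‖ := by ring
      _ ≤ 2 * ‖F (circleMap (cp y) ρ θ)‖ := mul_le_mul_of_nonneg_right h5 (norm_nonneg _)
  rw [hc, norm_smul, norm_mul, norm_mul, Complex.norm_I, mul_one, Complex.norm_real,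
    Real.norm_of_nonneg hp.le, Complex.norm_ofNat, intervalIntegral.integral_const_mul] at h1
  have h6 : Real.pi * ‖F z‖ ≤ ∫ θ in (0 : ℝ)..(2 * Real.pi), ‖F (circleMap (cp y) ρ θ)‖ := by
    linarith
  have h7 := cs_interval hcont
  have h8 : (Real.pi * ‖F z‖) ^ 2 ≤ 2 * Real.pi * QQ F ρ y :=
    (pow_le_pow_left₀ (by positivity) h6 2).trans h7
  have h9 : Real.pi * (Real.pi * ‖F z‖ ^ 2) ≤ Real.pi * (2 * QQ F ρ y) := by nlinarith
  have h10 := le_of_mul_le_mul_left h9 hp
  rw [div_mul_eq_mul_div, le_div_iff₀ hp]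
  linarith

/-- the integral of the circle integrals -/
theorem QQ_int {F : ℂ → ℂ} (hF : Differentiable ℂ F) {ρ B : ℝ} (hρ : 0 < ρ)
    (hi : ∀ x : ℝ, |x - 1 / 2| ≤ ρ → Integrable (fun y : ℝ => ‖F (x + y * I)‖ ^ 2))
    (hB : ∀ x : ℝ, |x - 1 / 2| ≤ ρ → VI F x ≤ B) :
    ∫⁻ y : ℝ, ENNReal.ofReal (QQ F ρ y) ≤ ENNReal.ofReal (2 * Real.pi * B) := by
  have hp := Real.pi_pos
  have hjc : Continuous (Function.uncurry fun (y θ : ℝ) => ‖F (circleMap (cp y) ρ θ)‖ ^ 2) := by
    have h := cp_continuous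
    have hF' := hF.continuous
    unfold Function.uncurry circleMap
    fun_prop
  have e1 : ∀ y : ℝ, ENNReal.ofReal (QQ F ρ y) =
      ∫⁻ θ in Ioc (0 : ℝ) (2 * Real.pi), ENNReal.ofReal (‖F (circleMap (cp y) ρ θ)‖ ^ 2) := by
    intro y
    unfold QQ
    rw [intervalIntegral.integral_of_le (by positivity), ofReal_integral_eq_lintegral_ofReal]
    · have h1 : Continuous fun θ : ℝ => ‖F (circleMap (cp y) ρ θ)‖ ^ 2 :=
        ((hF.continuous.comp (continuous_circleMap _ _)).norm).pow 2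
      exact (h1.intervalIntegrable 0 (2 * Real.pi)).1
    · exact Eventually.of_forall fun θ => by positivity
  simp only [e1]
  rw [lintegral_lintegral_swap]
  · have e2 : ∀ θ : ℝ, ∫⁻ y : ℝ, ENNReal.ofReal (‖F (circleMap (cp y) ρ θ)‖ ^ 2) ≤
        ENNReal.ofReal B := by
      intro θ
      have e3 : ∀ y : ℝ, circleMap (cp y) ρ θ =
          ((1 / 2 + ρ * Real.cos θ : ℝ) : ℂ) + ((y + ρ * Real.sin θ : ℝ) : ℂ) * I := by
        intro y
        unfold circleMap cp
        rw [Complex.exp_mul_I]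
        push_cast
        ring
      simp only [e3]
      have hx : |(1 / 2 + ρ * Real.cos θ) - 1 / 2| ≤ ρ := by
        rw [add_sub_cancel_left, abs_mul, abs_of_pos hρ]
        have := Real.abs_cos_le_one θ
        nlinarith
      have e4 := lintegral_add_right_eq_self (μ := (volume : Measure ℝ))
        (fun y : ℝ => ENNReal.ofReal (‖F (((1 / 2 + ρ * Real.cos θ : ℝ) : ℂ) + (y : ℂ) * I)‖ ^ 2))
        (ρ * Real.sin θ)
      rw [e4, ← ofReal_integral_eq_lintegral_ofReal (hi _ hx)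
        (Eventually.of_forall fun y => by positivity)]
      exact ENNReal.ofReal_le_ofReal (hB _ hx)
    calc ∫⁻ θ in Ioc (0 : ℝ) (2 * Real.pi), ∫⁻ y : ℝ,
          ENNReal.ofReal (‖F (circleMap (cp y) ρ θ)‖ ^ 2)
        ≤ ∫⁻ θ in Ioc (0 : ℝ) (2 * Real.pi), ENNReal.ofReal B := lintegral_mono e2
      _ = ENNReal.ofReal (2 * Real.pi * B) := by
          rw [setLIntegral_const, Real.volume_Ioc, sub_zero, mul_comm,
            ← ENNReal.ofReal_mul (by positivity)]
  · exact (hjc.measurable.ennreal_ofReal).aemeasurable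

end Pool.Agent.Q80.ZM
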