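import Pool.Agent.Q80.ZM.Glo3

/-!
The heights where the function does not grow fast.
-/

set_option autoImplicit false

open Complex Filter Topology Set MeasureTheory Metric
open scoped ENNReal

namespace Pool.Agent.Q80.ZM

open Q97.MM

/-- the moment on the critical line is bounded by the normalising constants -/
theorem J_up (k : ℕ) : ∀ᶠ T : ℝ in atTop, ∀ U : ℝ, Adm T U →
    T ^ (2 * k) * JJ k T U (1 / 2) ≤ 2 * V0 k T U := by
  filter_upwards [GJ k 0 (show (0 : ℝ) < 1 by norm_num)] with T h1 U h
  have h2 := (abs_le.1 (h1 U h)).1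
  rw [Gn_zero k h] at h2
  have hV := V0_pos k h
  have h3 : Jn k T U 0 ≤ 2 := by linarith
  unfold Jn at h3
  rwa [zero_div, add_zero, div_le_iff₀ hV] at h3

/-- the squared modulus on the critical line -/
noncomputable def hh (k : ℕ) (T U u : ℝ) : ℝ := ‖FF k T U (cp u)‖ ^ 2

lemma cp_eq (u : ℝ) : cp u = ((1 / 2 : ℝ) : ℂ) + u * I := by
  unfold cp; push_cast; ring

lemma hh_eq (k : ℕ) (T U u : ℝ) : hh k T U u = ‖Z1 (cp u)‖ ^ (2 * k) * wt T U u := by
  unfold hh
  rw [cp_eq, FF_sq]
  simp

lemma hh_cont (k : ℕ) (T U : ℝ) : Continuous (hh k T U) :=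
  (((FF_differentiable k T U).continuous.comp cp_continuous).norm).pow 2

lemma hh_nonneg (k : ℕ) (T U u : ℝ) : 0 ≤ hh k T U u := by unfold hh; positivity

lemma hh_lint (k : ℕ) {T U : ℝ} (h : Adm T U) :
    ∫⁻ u, ENNReal.ofReal (hh k T U u) = ENNReal.ofReal (V0 k T U) := by
  obtain ⟨M, δ, hM, hδ, hbd⟩ := FF_bd k T h.pos
  have hi : Integrable fun y : ℝ => ‖FF k T U (((1 / 2 : ℝ) : ℂ) + y * I)‖ ^ 2 :=
    ln_sq_integrable (FF_differentiable k T U) hδ hbd (x := 1 / 2) (by norm_num)
    (by norm_num)
  unfold V0 VI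
  rw [ofReal_integral_eq_lintegral_ofReal hi (Eventually.of_forall fun y => by positivity)]
  refine lintegral_congr fun y => ?_
  unfold hh
  rw [cp_eq]

/-- the mass of a short interval -/
noncomputable def dd (k : ℕ) (r T U y : ℝ) : ℝ := ∫ u in (y - r)..(y + r), hh k T U u

lemma dd_cont (k : ℕ) (r T U : ℝ) : Continuous (dd k r T U) := by
  unfold dd
  have h := hh_cont k T U
  have e : (fun y => ∫ u in (y - r)..(y + r), hh k T U u) = fun y =>
      (∫ u in (0 : ℝ)..(y + r), hh k T U u) - ∫ u in (0 : ℝ)..(y - r), hh k T U u := by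
    funext y
    rw [intervalIntegral.integral_interval_sub_left (h.intervalIntegrable _ _)
      (h.intervalIntegrable _ _)]
  rw [e]
  have h1 : Continuous fun b => ∫ u in (0 : ℝ)..b, hh k T U u :=
    intervalIntegral.continuous_primitive (fun a b => h.intervalIntegrable a b) 0
  exact (h1.comp (by fun_prop)).sub (h1.comp (by fun_prop))

lemma dd_nonneg (k : ℕ) {r : ℝ} (hr : 0 < r) (T U y : ℝ) : 0 ≤ dd k r T U y :=
  intervalIntegral.integral_nonneg (by linarith) fun u _ => hh_nonneg k T U u

lemma dd_lint (k : ℕ) {r : ℝ} (hr : 0 < r) (T U y : ℝ) : ENNReal.ofReal (dd k r T U y) =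
    ∫⁻ u in Icc (y - r) (y + r), ENNReal.ofReal (hh k T U u) := by
  unfold dd
  rw [intervalIntegral.integral_of_le (by linarith), ← integral_Icc_eq_integral_Ioc,
    ofReal_integral_eq_lintegral_ofReal]
  · exact (hh_cont k T U).integrableOn_Icc
  · exact Eventually.of_forall fun u => hh_nonneg k T U u

/-- the tail -/
lemma dd_tail (k : ℕ) {r T U y : ℝ} (h : Adm T U) (hr0 : 0 < r) (hr1 : r ≤ 1 / 8)
    (hr2 : 8 * r ≤ Real.log T) (hy : U * Real.log T / 2 < |y - T|) :
    dd k r T U y ≤ 2 * r * tl k T U y := by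
  have hT : 3 ≤ T := h.1
  have hU1 : 1 ≤ U := h.2.1
  set L := Real.log T with hLdef
  have hL1 : 1 ≤ L := h.log
  have hULL : L ≤ U * L := by nlinarith
  have h1 : 4 * r ≤ |y - T| := by linarith
  have h3 := abs_le_scaled (T := T) (U := U) (by linarith) (by linarith) h.le y
  set X := (y - T) / U with hX
  have hXa : |X| = |y - T| / U := by rw [hX, abs_div, abs_of_pos (by linarith : 0 < U)]
  have hX1 : L / 2 ≤ |X| := by
    rw [hXa, le_div_iff₀ (by linarith)]
    linarith
  have key : ∀ t ∈ Icc (y - r) (y + r), hh k T U t ≤ tl k T U y := by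
    intro t ht
    have ht' : |t - y| ≤ r := abs_le.2 ⟨by linarith [ht.1], by linarith [ht.2]⟩
    rw [hh_eq]
    have h4 : wt T U t ≤ Real.exp (-((1 / 6 * L) ^ 2 / 2)) * Real.exp (-(X ^ 2 / 2)) := by
      unfold wt
      rw [← Real.exp_add]
      apply Real.exp_le_exp.2
      have h5 : 3 / 4 * |X| ≤ |(t - T) / U| := by
        rw [hXa, abs_div, abs_of_pos (by linarith : 0 < U), ← mul_div_assoc]
        apply div_le_div_of_nonneg_right _ (by linarith)
        have h6 := abs_add_le (y - t) (t - T)
        rw [sub_add_sub_cancel, abs_sub_comm y t] at h6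
        linarith
      have h6 : (3 / 4 * |X|) ^ 2 ≤ ((t - T) / U) ^ 2 := by
        rw [← sq_abs ((t - T) / U)]
        exact pow_le_pow_left₀ (by positivity) h5 2
      have h7 : (L / 2) ^ 2 ≤ |X| ^ 2 := pow_le_pow_left₀ (by positivity) hX1 2
      rw [mul_pow, sq_abs] at h6
      rw [sq_abs] at h7
      nlinarith
    have h5 : ‖Z1 (cp t)‖ ≤ 720 * (1 + |y|) ^ 2 := by
      rw [cp_eq]
      have h4 := Z1_growth (x := 1 / 2) (y := t) (by norm_num) (by norm_num)
      have h5 : 1 + |t| ≤ 2 * (1 + |y|) := by
        have h6 := abs_add_le (t - y) y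
        rw [sub_add_cancel] at h6
        linarith [abs_nonneg y]
      have h6 : (1 + |t|) ^ 2 ≤ (2 * (1 + |y|)) ^ 2 := pow_le_pow_left₀ (by positivity) h5 2
      nlinarith
    have h6 : ‖Z1 (cp t)‖ ^ (2 * k) ≤
        720 ^ (2 * k) * ((1 + T) * (1 + |X|)) ^ (2 * (2 * k)) := by
      calc ‖Z1 (cp t)‖ ^ (2 * k) ≤ (720 * (1 + |y|) ^ 2) ^ (2 * k) :=
            pow_le_pow_left₀ (norm_nonneg _) h5 _
        _ = 720 ^ (2 * k) * (1 + |y|) ^ (2 * (2 * k)) := by rw [mul_pow, ← pow_mul]
        _ ≤ _ := by gcongr
    calc ‖Z1 (cp t)‖ ^ (2 * k) * wt T U t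
        ≤ (720 ^ (2 * k) * ((1 + T) * (1 + |X|)) ^ (2 * (2 * k))) *
          (Real.exp (-((1 / 6 * L) ^ 2 / 2)) * Real.exp (-(X ^ 2 / 2))) := by
          apply mul_le_mul h6 h4 (wt_pos _ _ _).le
          have : 0 ≤ T := by linarith
          positivity
      _ = tl k T U y := by
          unfold tl
          rw [← hX, ← hLdef, mul_pow (1 + T)]
          ring
  unfold dd
  have h8 := intervalIntegral.integral_mono_on (μ := volume) (a := y - r) (b := y + r) (by linarith)
    ((hh_cont k T U).intervalIntegrable _ _) intervalIntegrable_const key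
  refine h8.trans (le_of_eq ?_)
  rw [intervalIntegral.integral_const, smul_eq_mul]
  ring

/-- the good heights carry half of the mass -/
theorem good (k : ℕ) {A : ℝ} (hA : 0 < A) : ∃ K : ℝ, 1 ≤ K ∧ ∀ᶠ T : ℝ in atTop, ∀ U : ℝ,
    Adm T U → ∃ S : Set ℝ, MeasurableSet S ∧
      (∀ y ∈ S, |y - T| ≤ U * Real.log T / 2 ∧
        ∀ z ∈ closedBall (cp y) (13 * (A / Real.log T)),
          ‖FF k T U z‖ ^ 2 ≤ K * (dd k (A / Real.log T) T U y / (2 * (A / Real.log T)))) ∧
      ENNReal.ofReal (A / Real.log T * V0 k T U) ≤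
        ∫⁻ y in S, ENNReal.ofReal (dd k (A / Real.log T) T U y) := by
  obtain ⟨C, hC, hC'⟩ := V_le k (a := 26 * A) (by positivity)
  obtain ⟨c, hc, hc'⟩ := V0_lower k
  have hKK := KK_nonneg (2 * (2 * k))
  have htt := (tail_tendsto (2 * (2 * k)) (η := 1 / 6) (by norm_num)).eventually
    (gt_mem_nhds (show (0 : ℝ) < c / (4 * (720 ^ (2 * k) * (KK (2 * (2 * k)) + 1)))
      by positivity))
  have hl := (log_div_tendsto (26 * A)).eventually (gt_mem_nhds (show (0 : ℝ) < 1 / 8 by norm_num))
  have hLe := Real.tendsto_log_atTop.eventually_ge_atTop (1 + 8 * A)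
  refine ⟨16 * C + 1, by linarith, ?_⟩
  filter_upwards [hC', htt, hl, hLe] with T h1 h3 h4 h5 U h
  set L := Real.log T with hLdef
  set r := A / L with hrdef
  have hL1 : 1 ≤ L := h.log
  have hT : 3 ≤ T := h.1
  have hT0 : 0 < T := by linarith
  have hU := h.pos
  have hp := Real.pi_pos
  have hr : 0 < r := by positivity
  have e26 : 26 * r = 26 * A / L := by rw [hrdef]; ring
  have h4' : 26 * A / L < 1 / 8 := by rwa [abs_of_pos (by positivity)] at h4
  have hr8 : r ≤ 1 / 8 := by
    have : r ≤ 26 * A / L := by rw [← e26]; linarith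
    linarith
  have hrL : 8 * r ≤ L := by
    have : r ≤ A := by rw [hrdef]; exact div_le_self hA.le hL1
    linarith
  obtain ⟨M, δ, hM, hδ, hbd⟩ := FF_bd k T h.pos
  set V := V0 k T U with hV
  have hV0 : 0 < V := V0_pos k h
  have hQ := QQ_int (FF_differentiable k T U) (ρ := 26 * r) (B := C * V) (by positivity)
    (fun x hx => by
      have hx' := abs_le.1 hx
      rw [e26] at hx'
      exact ln_sq_integrable (FF_differentiable k T U) hδ hbd (by linarith) (by linarith))
    (fun x hx => h1 U h x (by rwa [← e26]))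
  have hQc := QQ_cont (FF_differentiable k T U).continuous (26 * r)
  have hdc := dd_cont k r T U
  set K := 16 * C + 1 with hK
  have hK0 : 0 < K := by positivity
  set S : Set ℝ := {y | 2 / Real.pi * QQ (FF k T U) (26 * r) y ≤ K * (dd k r T U y / (2 * r))} ∩
    {y | |y - T| ≤ U * L / 2} with hS
  have mS : MeasurableSet S :=
    (measurableSet_le (continuous_const.mul hQc).measurable
      (continuous_const.mul (hdc.div_const _)).measurable).inter
      (measurableSet_le (by fun_prop) (by fun_prop))
  refine ⟨S, mS, fun y hy => ⟨hy.2, fun z hz => ?_⟩, ?_⟩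
  · have h6 := sup_le (FF_differentiable k T U) (ρ := 26 * r) (y := y) (z := z) (by positivity)
      (by
        have : 26 * r / 2 = 13 * r := by ring
        rwa [this])
    exact h6.trans hy.1
  · obtain ⟨ti, te⟩ := tl_int k (T := T) hU
    have hpt : ∀ y, ENNReal.ofReal (dd k r T U y) ≤
        S.indicator (fun y => ENNReal.ofReal (dd k r T U y)) y +
        (ENNReal.ofReal (2 * r / K * (2 / Real.pi)) * ENNReal.ofReal (QQ (FF k T U) (26 * r) y) +
          ENNReal.ofReal (2 * r) * ENNReal.ofReal (tl k T U y)) := by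
      intro y
      by_cases hyS : y ∈ S
      · rw [indicator_of_mem hyS]
        exact le_self_add
      · rw [indicator_of_notMem hyS, zero_add, ← ENNReal.ofReal_mul (by positivity),
          ← ENNReal.ofReal_mul (by positivity)]
        by_cases hy : |y - T| ≤ U * L / 2
        · have h6 : K * (dd k r T U y / (2 * r)) < 2 / Real.pi * QQ (FF k T U) (26 * r) y := by
            by_contra hcon
            push Not at hcon
            exact hyS ⟨hcon, hy⟩
          refine le_trans ?_ le_self_add
          apply ENNReal.ofReal_le_ofReal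
          have h7 : dd k r T U y = 2 * r / K * (K * (dd k r T U y / (2 * r))) := by
            field_simp
          rw [h7, mul_assoc]
          exact mul_le_mul_of_nonneg_left h6.le (by positivity)
        · push Not at hy
          refine le_trans ?_ le_add_self
          apply ENNReal.ofReal_le_ofReal
          exact dd_tail k h hr hr8 hrL hy
    have htot : ∫⁻ y, ENNReal.ofReal (dd k r T U y) = ENNReal.ofReal (2 * r * V) := by
      have h6 := avg_swap (g := fun u => ENNReal.ofReal (hh k T U u))
        (hh_cont k T U).measurable.ennreal_ofReal hr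
      rw [hh_lint k h] at h6
      rw [ENNReal.ofReal_mul (by positivity), ← h6]
      refine lintegral_congr fun y => ?_
      rw [dd_lint k hr]
    have h6 := lintegral_mono (μ := (volume : Measure ℝ)) hpt
    have mQ : Measurable fun y => ENNReal.ofReal (QQ (FF k T U) (26 * r) y) :=
      hQc.measurable.ennreal_ofReal
    have md : Measurable fun y => ENNReal.ofReal (dd k r T U y) := hdc.measurable.ennreal_ofReal
    rw [htot, lintegral_add_left (md.indicator mS), lintegral_add_left (mQ.const_mul _),
      lintegral_const_mul _ mQ, lintegral_const_mul' _ _ ENNReal.ofReal_ne_top,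
      lintegral_indicator mS] at h6
    have h7 : ENNReal.ofReal (2 * r / K * (2 / Real.pi)) *
        (∫⁻ y, ENNReal.ofReal (QQ (FF k T U) (26 * r) y)) +
          ENNReal.ofReal (2 * r) * (∫⁻ y, ENNReal.ofReal (tl k T U y)) ≤
        ENNReal.ofReal (r * V) := by
      rw [← ofReal_integral_eq_lintegral_ofReal ti
          (Eventually.of_forall fun y => tl_nonneg k hT0.le U y), te]
      calc _ ≤ ENNReal.ofReal (2 * r / K * (2 / Real.pi)) *
            ENNReal.ofReal (2 * Real.pi * (C * V)) + ENNReal.ofReal (2 * r) *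
            ENNReal.ofReal (720 ^ (2 * k) * (1 + T) ^ (2 * (2 * k)) *
            Real.exp (-((1 / 6 * Real.log T) ^ 2 / 2)) * (U * KK (2 * (2 * k)))) := by gcongr
        _ = ENNReal.ofReal (2 * r / K * (2 / Real.pi) * (2 * Real.pi * (C * V)) +
            2 * r * (720 ^ (2 * k) * (1 + T) ^ (2 * (2 * k)) *
            Real.exp (-((1 / 6 * Real.log T) ^ 2 / 2)) * (U * KK (2 * (2 * k))))) := by
            rw [← ENNReal.ofReal_mul (by positivity), ← ENNReal.ofReal_mul (by positivity),
              ← ENNReal.ofReal_add (by positivity) (by positivity)]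
        _ ≤ ENNReal.ofReal (r * V) := by
            apply ENNReal.ofReal_le_ofReal
            have a1 : 2 * r / K * (2 / Real.pi) * (2 * Real.pi * (C * V)) ≤ r * V / 2 := by
              have e1 : 2 * r / K * (2 / Real.pi) * (2 * Real.pi * (C * V)) =
                  (8 * C / K) * (r * V) := by field_simp; ring
              rw [e1]
              have : 8 * C / K ≤ 1 / 2 := by
                rw [div_le_iff₀ hK0, hK]
                linarith
              have h9 : 0 ≤ r * V := by positivity
              nlinarith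
            have a2 : 2 * r * (720 ^ (2 * k) * (1 + T) ^ (2 * (2 * k)) *
                Real.exp (-((1 / 6 * Real.log T) ^ 2 / 2)) * (U * KK (2 * (2 * k)))) ≤
                r * V / 2 := by
              have h10 := hc' T U h
              have h11 : c * U ≤ V := by
                refine le_trans ?_ h10
                have h12 : (1 : ℝ) ≤ T ^ (2 * k) := one_le_pow₀ (by linarith)
                have h13 : 0 ≤ c * U := by positivity
                nlinarith
              have h14 : 720 ^ (2 * k) * (1 + T) ^ (2 * (2 * k)) *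
                  Real.exp (-((1 / 6 * Real.log T) ^ 2 / 2)) * (U * KK (2 * (2 * k))) ≤
                  c / 4 * U := by
                have e1 : 720 ^ (2 * k) * (1 + T) ^ (2 * (2 * k)) *
                  Real.exp (-((1 / 6 * Real.log T) ^ 2 / 2)) * (U * KK (2 * (2 * k))) =
                  ((1 + T) ^ (2 * (2 * k)) * Real.exp (-((1 / 6 * Real.log T) ^ 2 / 2))) *
                  (720 ^ (2 * k) * KK (2 * (2 * k)) * U) := by ring
                rw [e1]
                calc _ ≤ c / (4 * (720 ^ (2 * k) * (KK (2 * (2 * k)) + 1))) *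
                      (720 ^ (2 * k) * KK (2 * (2 * k)) * U) :=
                      mul_le_mul_of_nonneg_right h3.le (by positivity)
                  _ ≤ c / (4 * (720 ^ (2 * k) * (KK (2 * (2 * k)) + 1))) *
                      (720 ^ (2 * k) * (KK (2 * (2 * k)) + 1) * U) := by
                      gcongr
                      linarith
                  _ = c / 4 * U := by field_simp
              nlinarith
            linarith
    have h8 : ENNReal.ofReal (2 * r * V) = ENNReal.ofReal (r * V) + ENNReal.ofReal (r * V) := by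
      rw [← ENNReal.ofReal_add (by positivity) (by positivity)]
      congr 1
      ring
    rw [h8] at h6
    have h9 : ENNReal.ofReal (r * V) + ENNReal.ofReal (r * V) ≤
        (∫⁻ y in S, ENNReal.ofReal (dd k r T U y)) + ENNReal.ofReal (r * V) :=
      h6.trans (by gcongr)
    exact (ENNReal.add_le_add_iff_right ENNReal.ofReal_ne_top).1 h9

end Pool.Agent.Q80.ZM
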