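import Pool.Agent.Q80.ZM.Glo4

/-!
Geometric means and dense sets.
-/

set_option autoImplicit false

open Complex Filter Topology Set MeasureTheory Metric
open scoped ENNReal

namespace Pool.Agent.Q80.ZM

open Q97.MM

lemma ae_zeta : ∀ᵐ u : ℝ, riemannZeta (cp u) ≠ 0 ∧ Z1 (cp u) ≠ 0 := by
  have hne : ∀ u : ℝ, cp u ≠ 1 := by
    intro u hc
    have := congrArg Complex.re hc
    simp [cp] at this
  have h1 : ∀ n : ℕ, {u : ℝ | |u| ≤ n + 1 ∧ Z1 (cp u) = 0}.Finite := by
    intro n
    have hcp := (isCompact_closedBall (cp 0) (5 * ((n : ℝ) + 1))).exists_isMaxOn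
      ⟨cp 0, mem_closedBall_self (by positivity)⟩ Z1_differentiable.continuous.norm.continuousOn
    obtain ⟨z, hz, hmax⟩ := hcp
    obtain ⟨S, hS, -⟩ := zeros_card (f := Z1) (c := cp 0) (s₀ := 1) (r := (n : ℝ) + 1)
      (M := ‖Z1 z‖) (by positivity)
      (fun w _ => Z1_differentiable.analyticAt w) (fun w hw => hmax hw) (by
        rw [mem_closedBall, dist_eq_norm]
        have : (1 : ℂ) - cp 0 = ((1 / 2 : ℝ) : ℂ) := by unfold cp; push_cast; ring
        rw [this, Complex.norm_real, Real.norm_of_nonneg (by norm_num)]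
        have : (0 : ℝ) ≤ n := Nat.cast_nonneg n
        linarith) (by rw [Z1_one]; exact one_ne_zero)
    have hinj : Function.Injective cp := by
      intro a b hab
      have := congrArg Complex.im hab
      simpa [cp] using this
    refine (S.finite_toSet.preimage hinj.injOn).subset fun u hu => ?_
    show cp u ∈ (S : Set ℂ)
    rw [Finset.mem_coe, hS, mem_closedBall, dist_eq_norm, cp_dist, sub_zero]
    exact hu
  have h2 : {u : ℝ | Z1 (cp u) = 0}.Countable := by
    have e : {u : ℝ | Z1 (cp u) = 0} ⊆ ⋃ n : ℕ, {u : ℝ | |u| ≤ n + 1 ∧ Z1 (cp u) = 0} := by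
      intro u hu
      obtain ⟨n, hn⟩ := exists_nat_ge |u|
      exact mem_iUnion.2 ⟨n, by linarith, hu⟩
    exact (countable_iUnion fun n => (h1 n).countable).mono e
  have h3 := h2.ae_notMem (volume : Measure ℝ)
  filter_upwards [h3] with u hu
  have hu' : Z1 (cp u) ≠ 0 := hu
  refine ⟨fun h => hu' ?_, hu'⟩
  rw [Z1_of_ne (hne u), h, mul_zero]

lemma cp_ne_one (u : ℝ) : cp u ≠ 1 := by
  intro hc
  have := congrArg Complex.re hc
  simp [cp] at this

lemma cp_analytic (u : ℝ) : AnalyticAt ℝ cp u := by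
  have h2 : AnalyticAt ℝ (fun x : ℝ => (x : ℂ)) u := Complex.ofRealCLM.analyticAt u
  unfold cp
  exact analyticAt_const.add (h2.mul analyticAt_const)

lemma zeta_log_int (a b : ℝ) :
    IntervalIntegrable (fun u : ℝ => Real.log ‖riemannZeta (cp u)‖) volume a b := by
  have h : MeromorphicOn (fun u : ℝ => riemannZeta (cp u)) (uIcc a b) := by
    intro u _
    have h1 : AnalyticAt ℝ riemannZeta (cp u) :=
      ((zeta_an (y := u) (d := 1 / 4) le_rfl) (cp u) (mem_closedBall_self (by norm_num))).restrictScalars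
    exact (AnalyticAt.comp (g := riemannZeta) (f := cp) h1 (cp_analytic u)).meromorphicAt
  exact h.intervalIntegrable_log_norm

/-- the geometric mean -/
noncomputable def GM (A T y : ℝ) : ℝ :=
  Real.exp (Real.log T / (2 * A) *
    ∫ u in (y - A / Real.log T)..(y + A / Real.log T), Real.log ‖riemannZeta (cp u)‖)

lemma hh_log (k : ℕ) (T U : ℝ) : ∀ᵐ u : ℝ, Real.log (hh k T U u) =
    2 * k * Real.log ‖riemannZeta (cp u)‖ + (2 * k * Real.log ‖cp u - 1‖ - ((u - T) / U) ^ 2) := by
  filter_upwards [ae_zeta] with u hu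
  have h1 : 0 < ‖riemannZeta (cp u)‖ := norm_pos_iff.2 hu.1
  have h2 : 0 < ‖cp u - 1‖ := norm_pos_iff.2 (sub_ne_zero.2 (cp_ne_one u))
  rw [hh_eq, Z1_of_ne (cp_ne_one u), norm_mul, mul_pow,
    Real.log_mul (by positivity) (wt_pos _ _ _).ne', Real.log_mul (by positivity) (by positivity),
    Real.log_pow, Real.log_pow]
  unfold wt
  rw [Real.log_exp]
  push_cast
  ring

/-- comparison of the geometric means -/
theorem GM_low (k : ℕ) {A T U y : ℝ} (hA : 0 < A) (h : Adm T U) (hr : A / Real.log T ≤ 1 / 8)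
    (hy : |y - T| ≤ U * Real.log T / 2) :
    Real.exp (Real.log T / (2 * A) *
      ∫ u in (y - A / Real.log T)..(y + A / Real.log T), Real.log (hh k T U u)) ≤
      (2 * T) ^ (2 * k) * (GM A T y ^ (2 * k) * wt T U y) := by
  set L := Real.log T with hLdef
  set r := A / L with hrdef
  have hL1 : 1 ≤ L := h.log
  have hT : 3 ≤ T := h.1
  have hU1 : 1 ≤ U := h.2.1
  have hUL : U * L ≤ T := by
    have := h.2.2
    rwa [le_div_iff₀ (by linarith)] at this
  have hr0 : 0 < r := by positivity
  have hy' := abs_le.1 hy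
  have e0 : L / (2 * A) = 1 / (2 * r) := by rw [hrdef]; field_simp
  have c1 : Continuous fun u : ℝ => Real.log ‖cp u - 1‖ := by
    have hc : Continuous fun u : ℝ => ‖cp u - 1‖ := (cp_continuous.sub continuous_const).norm
    exact hc.log fun u => norm_ne_zero_iff.2 (sub_ne_zero.2 (cp_ne_one u))
  have i1 := zeta_log_int (y - r) (y + r)
  have i2 : IntervalIntegrable (fun u : ℝ => 2 * k * Real.log ‖cp u - 1‖ - ((u - T) / U) ^ 2)
      volume (y - r) (y + r) := by
    apply Continuous.intervalIntegrable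
    fun_prop
  have e1 : ∫ u in (y - r)..(y + r), Real.log (hh k T U u) =
      2 * k * (∫ u in (y - r)..(y + r), Real.log ‖riemannZeta (cp u)‖) +
      ∫ u in (y - r)..(y + r), (2 * k * Real.log ‖cp u - 1‖ - ((u - T) / U) ^ 2) := by
    rw [← intervalIntegral.integral_const_mul, ← intervalIntegral.integral_add (i1.const_mul _) i2]
    refine intervalIntegral.integral_congr_ae ?_
    filter_upwards [hh_log k T U] with u hu _ using hu
  have h2 : ∫ u in (y - r)..(y + r), (2 * k * Real.log ‖cp u - 1‖ - ((u - T) / U) ^ 2) ≤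
      2 * r * (2 * k * Real.log (2 * T) - ((y - T) / U) ^ 2) := by
    have h3 : ∫ u in (y - r)..(y + r), (2 * k * Real.log ‖cp u - 1‖ - ((u - T) / U) ^ 2) ≤
        ∫ u in (y - r)..(y + r), (2 * k * Real.log (2 * T) - ((y - T) / U) ^ 2 -
          2 * (y - T) / U ^ 2 * (u - y)) := by
      refine intervalIntegral.integral_mono_on (μ := volume) (by linarith) i2
        (Continuous.intervalIntegrable (by fun_prop) _ _) fun u hu => ?_
      have h4 : Real.log ‖cp u - 1‖ ≤ Real.log (2 * T) := by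
        refine Real.log_le_log (norm_pos_iff.2 (sub_ne_zero.2 (cp_ne_one u))) ?_
        have e : cp u - 1 = ((-(1 / 2) : ℝ) : ℂ) + u * I := by unfold cp; push_cast; ring
        rw [e]
        refine (norm_add_le _ _).trans ?_
        rw [norm_mul, Complex.norm_I, mul_one, Complex.norm_real, Complex.norm_real, norm_neg,
          Real.norm_of_nonneg (by norm_num : (0 : ℝ) ≤ 1 / 2), Real.norm_eq_abs]
        have h5 : |u| ≤ T + T / 2 + 1 / 8 := by
          rw [abs_le]
          constructor <;> linarith [hu.1, hu.2]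
        linarith
      have h6 : 2 * (k : ℝ) * Real.log ‖cp u - 1‖ ≤ 2 * k * Real.log (2 * T) := by gcongr
      have h7 : ((y - T) / U) ^ 2 + 2 * (y - T) / U ^ 2 * (u - y) ≤ ((u - T) / U) ^ 2 := by
        have e : ((u - T) / U) ^ 2 - (((y - T) / U) ^ 2 + 2 * (y - T) / U ^ 2 * (u - y)) =
            ((u - y) / U) ^ 2 := by
          have : U ≠ 0 := by linarith
          field_simp
          ring
        have := sq_nonneg ((u - y) / U)
        linarith
      linarith
    refine h3.trans (le_of_eq ?_)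
    have i3 : IntervalIntegrable (fun u : ℝ => 2 * (y - T) / U ^ 2 * (u - y)) volume
        (y - r) (y + r) := Continuous.intervalIntegrable (by fun_prop) _ _
    rw [intervalIntegral.integral_sub intervalIntegrable_const i3,
      intervalIntegral.integral_const, intervalIntegral.integral_const_mul]
    have e5 : ∫ u in (y - r)..(y + r), (u - y) = 0 := by
      have := intervalIntegral.integral_comp_sub_right (a := y - r) (b := y + r)
        (fun u : ℝ => u) y
      rw [this]
      simp only [sub_sub_cancel_left, add_sub_cancel_left, integral_id]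
      ring
    rw [e5, smul_eq_mul]
    ring
  have h8 : L / (2 * A) * ∫ u in (y - r)..(y + r), Real.log (hh k T U u) ≤
      2 * k * (L / (2 * A) * ∫ u in (y - r)..(y + r), Real.log ‖riemannZeta (cp u)‖) +
        (2 * k * Real.log (2 * T) - ((y - T) / U) ^ 2) := by
    rw [e1, e0, mul_add]
    have h9 : 1 / (2 * r) * (∫ u in (y - r)..(y + r), (2 * k * Real.log ‖cp u - 1‖ -
        ((u - T) / U) ^ 2)) ≤ 1 / (2 * r) * (2 * r * (2 * k * Real.log (2 * T) -
          ((y - T) / U) ^ 2)) := mul_le_mul_of_nonneg_left h2 (by positivity)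
    have h10 : 1 / (2 * r) * (2 * r * (2 * k * Real.log (2 * T) - ((y - T) / U) ^ 2)) =
        2 * k * Real.log (2 * T) - ((y - T) / U) ^ 2 := by field_simp
    rw [h10] at h9
    linarith
  refine (Real.exp_le_exp.2 h8).trans (le_of_eq ?_)
  have e6 : Real.exp (2 * k * Real.log (2 * T)) = (2 * T) ^ (2 * k) := by
    have : 2 * (k : ℝ) * Real.log (2 * T) = ((2 * k : ℕ) : ℝ) * Real.log (2 * T) := by
      push_cast; ring
    rw [this, Real.exp_nat_mul, Real.exp_log (by linarith)]
  have e7 : GM A T y ^ (2 * k) = Real.exp (2 * k * (L / (2 * A) *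
      ∫ u in (y - r)..(y + r), Real.log ‖riemannZeta (cp u)‖)) := by
    unfold GM
    rw [← Real.exp_nat_mul]
    push_cast
    rfl
  have e8 : wt T U y = Real.exp (-((y - T) / U) ^ 2) := rfl
  have e9 : ∀ x a b : ℝ, Real.exp (x + (a - b)) = Real.exp a * (Real.exp x * Real.exp (-b)) := by
    intro x a b
    rw [← Real.exp_add, ← Real.exp_add]
    congr 1
    ring
  rw [e9, e6, e7, e8]

lemma exists_max (k : ℕ) {r : ℝ} (hr : 0 < r) (T U y : ℝ) :
    ∃ u₀ : ℝ, |u₀ - y| ≤ r ∧ dd k r T U y / (2 * r) ≤ ‖FF k T U (cp u₀)‖ ^ 2 := by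
  obtain ⟨u₀, hu, hmax⟩ := (isCompact_Icc (a := y - r) (b := y + r)).exists_isMaxOn
    ⟨y, by constructor <;> linarith⟩ (hh_cont k T U).continuousOn
  refine ⟨u₀, abs_le.2 ⟨by linarith [hu.1], by linarith [hu.2]⟩, ?_⟩
  rw [div_le_iff₀ (by positivity)]
  unfold dd
  have h8 := intervalIntegral.integral_mono_on (μ := volume) (a := y - r) (b := y + r) (by linarith)
    ((hh_cont k T U).intervalIntegrable _ _) intervalIntegrable_const fun u hu => hmax hu
  refine h8.trans (le_of_eq ?_)
  rw [intervalIntegral.integral_const, smul_eq_mul]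
  unfold hh
  ring

theorem part2 (k : ℕ) {A : ℝ} (hA : 0 < A) :
    ∃ C : ℝ, 0 < C ∧ ∀ᶠ T : ℝ in atTop, ∀ U : ℝ, Adm T U →
      ENNReal.ofReal (JJ k T U (1 / 2)) ≤
        ENNReal.ofReal C * ∫⁻ y, ENNReal.ofReal (GM A T y ^ (2 * k) * wt T U y) := by
  obtain ⟨K, hK, hK'⟩ := good k hA
  have hl := (log_div_tendsto A).eventually (gt_mem_nhds (show (0 : ℝ) < 1 / 8 by norm_num))
  refine ⟨4 * Real.exp (CL (Real.sqrt K)) * 2 ^ (2 * k), by positivity, ?_⟩
  filter_upwards [hK', hl, J_up k] with T h1 h2 h3 U h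
  obtain ⟨S, mS, hS, hSm⟩ := h1 U h
  have hL1 := h.log
  have hT : 3 ≤ T := h.1
  have hT0 : 0 < T := by linarith
  set L := Real.log T with hLdef
  set r := A / L with hrdef
  have hr0 : 0 < r := by positivity
  rw [abs_of_pos hr0] at h2
  have e0 : L / (2 * A) = 1 / (2 * r) := by rw [hrdef]; field_simp
  set V := V0 k T U with hV
  have hV0 : 0 < V := V0_pos k h
  set c := Real.exp (CL (Real.sqrt K)) with hc
  have hc0 : 0 < c := Real.exp_pos _
  have hpt : ∀ y ∈ S, dd k r T U y ≤
      2 * r * c * (2 * T) ^ (2 * k) * (GM A T y ^ (2 * k) * wt T U y) := by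
    intro y hy
    obtain ⟨hy1, hy2⟩ := hS y hy
    have hG : 0 ≤ GM A T y ^ (2 * k) * wt T U y :=
      mul_nonneg (by unfold GM; positivity) (wt_pos _ _ _).le
    rcases eq_or_lt_of_le (dd_nonneg k hr0 T U y) with h0 | h0
    · rw [← h0]; positivity
    · have hD : 0 < dd k r T U y / (2 * r) := by positivity
      obtain ⟨u₀, hu, hu'⟩ := exists_max k hr0 T U y
      have key := scaled_log (F := FF k T U) hr0
        (fun z _ => (FF_differentiable k T U).analyticAt z) hD hK hy2 hu hu'
      have h4 := GM_low k hA h h2.le hy1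
      have h5 : Real.log (dd k r T U y / (2 * r)) - CL (Real.sqrt K) ≤
          L / (2 * A) * ∫ u in (y - r)..(y + r), Real.log (hh k T U u) := by
        rw [e0, one_div, ← div_eq_inv_mul, le_div_iff₀ (by positivity)]
        unfold hh
        linarith
      have h6 := (Real.exp_le_exp.2 h5).trans h4
      rw [Real.exp_sub, Real.exp_log hD, div_le_iff₀ (Real.exp_pos _), div_le_iff₀ (by positivity)] at h6
      calc dd k r T U y ≤ (2 * T) ^ (2 * k) * (GM A T y ^ (2 * k) * wt T U y) *
            Real.exp (CL √K) * (2 * r) := h6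
        _ = _ := by rw [hc]; ring
  have h4 : ENNReal.ofReal (r * V) ≤ ENNReal.ofReal (2 * r * c * (2 * T) ^ (2 * k)) *
      ∫⁻ y, ENNReal.ofReal (GM A T y ^ (2 * k) * wt T U y) := by
    refine hSm.trans ?_
    calc ∫⁻ y in S, ENNReal.ofReal (dd k r T U y)
        ≤ ∫⁻ y in S, ENNReal.ofReal (2 * r * c * (2 * T) ^ (2 * k)) *
            ENNReal.ofReal (GM A T y ^ (2 * k) * wt T U y) := by
          refine setLIntegral_mono' mS fun y hy => ?_
          rw [← ENNReal.ofReal_mul (by positivity)]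
          exact ENNReal.ofReal_le_ofReal (hpt y hy)
      _ ≤ ∫⁻ y, ENNReal.ofReal (2 * r * c * (2 * T) ^ (2 * k)) *
            ENNReal.ofReal (GM A T y ^ (2 * k) * wt T U y) := setLIntegral_le_lintegral _ _
      _ = _ := lintegral_const_mul' _ _ ENNReal.ofReal_ne_top
  have h5 := h3 U h
  have hJ0 := JJ_nonneg k T U (1 / 2)
  have h6 : JJ k T U (1 / 2) ≤ 2 / (r * T ^ (2 * k)) * (r * V) := by
    have e1 : 2 / (r * T ^ (2 * k)) * (r * V) = 2 * V / T ^ (2 * k) := by field_simp
    rw [e1, le_div_iff₀ (by positivity)]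
    linarith
  calc ENNReal.ofReal (JJ k T U (1 / 2)) ≤ ENNReal.ofReal (2 / (r * T ^ (2 * k)) * (r * V)) :=
        ENNReal.ofReal_le_ofReal h6
    _ = ENNReal.ofReal (2 / (r * T ^ (2 * k))) * ENNReal.ofReal (r * V) :=
        ENNReal.ofReal_mul (by positivity)
    _ ≤ ENNReal.ofReal (2 / (r * T ^ (2 * k))) *
          (ENNReal.ofReal (2 * r * c * (2 * T) ^ (2 * k)) *
            ∫⁻ y, ENNReal.ofReal (GM A T y ^ (2 * k) * wt T U y)) := by gcongr
    _ = _ := by
        rw [← mul_assoc, ← ENNReal.ofReal_mul (by positivity)]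
        congr 2
        rw [mul_pow]
        field_simp
        ring

end Pool.Agent.Q80.ZM
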