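import Pool.Agent.Q80.ZM.Glo5

/-!
Relatively dense sets.
-/

set_option autoImplicit false

open Complex Filter Topology Set MeasureTheory Metric
open scoped ENNReal

namespace Pool.Agent.Q80.ZM

open Q97.MM

lemma zeta_meas : Measurable fun t : ℝ => ‖riemannZeta (cp t)‖ := by
  have : Continuous fun t : ℝ => riemannZeta (cp t) := by
    rw [continuous_iff_continuousAt]
    intro t
    exact ContinuousAt.comp (f := cp) (g := riemannZeta)
      ((zeta_an (y := t) (d := 1 / 4) le_rfl) (cp t) (mem_closedBall_self (by norm_num))).continuousAt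
      cp_continuous.continuousAt
  exact this.norm.measurable

lemma cE_pos {M γ : ℝ} (hγ : 0 < γ) : 0 < cE M γ := by unfold cE; positivity

lemma hh_le (k : ℕ) {T U u : ℝ} (hT : 3 ≤ T) (hu : |u - T| ≤ T / 2 + 1 / 8) :
    hh k T U u ≤ (2 * T) ^ (2 * k) * (‖riemannZeta (cp u)‖ ^ (2 * k) * wt T U u) := by
  rw [hh_eq, Z1_of_ne (cp_ne_one u), norm_mul, mul_pow, mul_assoc]
  apply mul_le_mul_of_nonneg_right _ (mul_nonneg (by positivity) (wt_pos _ _ _).le)
  apply pow_le_pow_left₀ (norm_nonneg _)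
  have e : cp u - 1 = ((-(1 / 2) : ℝ) : ℂ) + u * I := by unfold cp; push_cast; ring
  rw [e]
  refine (norm_add_le _ _).trans ?_
  rw [norm_mul, Complex.norm_I, mul_one, Complex.norm_real, Complex.norm_real, norm_neg,
    Real.norm_of_nonneg (by norm_num : (0 : ℝ) ≤ 1 / 2), Real.norm_eq_abs]
  have h := abs_le.1 hu
  have h5 : |u| ≤ T + T / 2 + 1 / 8 := by
    rw [abs_le]
    constructor <;> linarith
  linarith

theorem part3 (k : ℕ) {A γ : ℝ} (hA : 0 < A) (hγ : 0 < γ) :
    ∃ c : ℝ, 0 < c ∧ ∀ᶠ T : ℝ in atTop, ∀ U : ℝ, Adm T U → ∀ E : Set ℝ, MeasurableSet E →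
      (∀ t ∈ Icc (T / 2) (3 * T / 2), γ * (A / Real.log T) ≤
        volume.real (E ∩ Icc t (t + A / Real.log T))) →
      ENNReal.ofReal (c * JJ k T U (1 / 2)) ≤
        ∫⁻ t in E, ENNReal.ofReal (‖riemannZeta (cp t)‖ ^ (2 * k) * wt T U t) := by
  obtain ⟨K, hK, hK'⟩ := good k hA
  have hl := (log_div_tendsto A).eventually (gt_mem_nhds (show (0 : ℝ) < 1 / 8 by norm_num))
  set c₀ := cE (Real.sqrt K) γ with hc₀
  have hc0 : 0 < c₀ := cE_pos hγ
  refine ⟨c₀ / (8 * 2 ^ (2 * k)), by positivity, ?_⟩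
  filter_upwards [hK', hl, J_up k] with T h1 h2 h3 U h E mE hE
  obtain ⟨S, mS, hS, hSm⟩ := h1 U h
  have hL1 := h.log
  have hT : 3 ≤ T := h.1
  have hT0 : 0 < T := by linarith
  set L := Real.log T with hLdef
  set r := A / L with hrdef
  have hr0 : 0 < r := by positivity
  rw [abs_of_pos hr0] at h2
  have hU1 : 1 ≤ U := h.2.1
  have hUL : U * L ≤ T := by
    have := h.2.2
    rwa [le_div_iff₀ (by linarith)] at this
  set V := V0 k T U with hV
  have hV0 : 0 < V := V0_pos k h
  set χ : ℝ → ℝ := E.indicator fun _ => 1 with hχ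
  have mχ : Measurable χ := measurable_const.indicator mE
  have χ0 : ∀ x, 0 ≤ χ x := fun x => indicator_nonneg (fun _ _ => zero_le_one) x
  have χ1 : ∀ x, χ x ≤ 1 := fun x => indicator_le_self' (fun _ _ => zero_le_one) x
  set R : Set ℝ := {u | |u - T| ≤ T / 2 + 1 / 8} with hR
  have mR : MeasurableSet R := measurableSet_le (by fun_prop) (by fun_prop)
  set g : ℝ → ℝ≥0∞ := (E ∩ R).indicator fun u => ENNReal.ofReal (hh k T U u) with hg
  have mg : Measurable g := (hh_cont k T U).measurable.ennreal_ofReal.indicator (mE.inter mR)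
  have hpt : ∀ y ∈ S, ENNReal.ofReal (c₀ / 2) * ENNReal.ofReal (dd k r T U y) ≤
      ∫⁻ u in Icc (y - r) (y + r), g u := by
    intro y hy
    obtain ⟨hy1, hy2⟩ := hS y hy
    have hy1' := abs_le.1 hy1
    rcases eq_or_lt_of_le (dd_nonneg k hr0 T U y) with h0 | h0
    · rw [← h0]; simp
    · have hD : 0 < dd k r T U y / (2 * r) := by positivity
      obtain ⟨u₀, hu, hu'⟩ := exists_max k hr0 T U y
      have hdens : γ * r ≤ ∫ u in (y - r)..(y + r), χ u := by
        refine (hE y ⟨by linarith, by linarith⟩).trans ?_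
        rw [intervalIntegral.integral_of_le (by linarith), ← integral_Icc_eq_integral_Ioc, hχ,
          setIntegral_indicator mE, setIntegral_const, smul_eq_mul, mul_one]
        refine measureReal_mono ?_ ?_
        · rintro x ⟨hx1, hx2⟩
          exact ⟨⟨by linarith [hx2.1], hx2.2⟩, hx1⟩
        · exact ((measure_mono inter_subset_left).trans_lt measure_Icc_lt_top).ne
      have key := scaled_set (F := FF k T U) hr0
        (fun z _ => (FF_differentiable k T U).analyticAt z) hD hK hy2 hu hu' hγ mχ χ0 χ1 hdens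
      have h5 : c₀ / 2 * dd k r T U y ≤ ∫ u in (y - r)..(y + r), χ u * hh k T U u := by
        have e : c₀ / 2 * dd k r T U y = c₀ * r * (dd k r T U y / (2 * r)) := by field_simp
        rw [e]
        exact key
      rw [← ENNReal.ofReal_mul (by positivity)]
      refine (ENNReal.ofReal_le_ofReal h5).trans ?_
      have hi : IntegrableOn (fun u => χ u * hh k T U u) (Icc (y - r) (y + r)) := by
        have := bdd_ii mχ χ0 χ1 (a := y - r) (b := y + r) ((hh_cont k T U).intervalIntegrable _ _)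
        rw [intervalIntegrable_iff_integrableOn_Icc_of_le (by linarith)] at this
        exact this
      rw [intervalIntegral.integral_of_le (by linarith), ← integral_Icc_eq_integral_Ioc,
        ofReal_integral_eq_lintegral_ofReal hi
        (Eventually.of_forall fun u => mul_nonneg (χ0 u) (hh_nonneg k T U u))]
      refine setLIntegral_mono' measurableSet_Icc fun u hu => ?_
      rw [hg, hχ]
      by_cases huE : u ∈ E
      · have huR : u ∈ R := by
          rw [hR]
          show |u - T| ≤ T / 2 + 1 / 8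
          rw [abs_le]
          constructor <;> linarith [hu.1, hu.2]
        rw [indicator_of_mem huE, indicator_of_mem (show u ∈ E ∩ R from ⟨huE, huR⟩), one_mul]
      · rw [indicator_of_notMem huE, zero_mul, ENNReal.ofReal_zero]
        exact zero_le
  have h4 : ENNReal.ofReal (c₀ / 2) * ENNReal.ofReal (r * V) ≤
      ENNReal.ofReal (2 * r) * ∫⁻ u, g u := by
    calc ENNReal.ofReal (c₀ / 2) * ENNReal.ofReal (r * V)
        ≤ ENNReal.ofReal (c₀ / 2) * ∫⁻ y in S, ENNReal.ofReal (dd k r T U y) := by gcongr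
      _ = ∫⁻ y in S, ENNReal.ofReal (c₀ / 2) * ENNReal.ofReal (dd k r T U y) :=
          (lintegral_const_mul' _ _ ENNReal.ofReal_ne_top).symm
      _ ≤ ∫⁻ y in S, ∫⁻ u in Icc (y - r) (y + r), g u := setLIntegral_mono' mS hpt
      _ ≤ ∫⁻ y, ∫⁻ u in Icc (y - r) (y + r), g u := setLIntegral_le_lintegral _ _
      _ = _ := avg_swap mg hr0
  have h5 : ∫⁻ u, g u ≤ ENNReal.ofReal ((2 * T) ^ (2 * k)) *
      ∫⁻ t in E, ENNReal.ofReal (‖riemannZeta (cp t)‖ ^ (2 * k) * wt T U t) := by
    rw [← lintegral_const_mul' _ _ ENNReal.ofReal_ne_top, ← lintegral_indicator mE]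
    refine lintegral_mono fun u => ?_
    by_cases hu : u ∈ E ∩ R
    · rw [hg, indicator_of_mem hu, indicator_of_mem hu.1, ← ENNReal.ofReal_mul (by positivity)]
      exact ENNReal.ofReal_le_ofReal (hh_le k hT hu.2)
    · rw [hg, indicator_of_notMem hu]
      exact zero_le
  have h6 := h3 U h
  have hJ0 := JJ_nonneg k T U (1 / 2)
  have h7 : c₀ / (8 * 2 ^ (2 * k)) * JJ k T U (1 / 2) ≤
      1 / (2 * r * (2 * T) ^ (2 * k)) * (c₀ / 2 * (r * V)) := by
    have e1 : 1 / (2 * r * (2 * T) ^ (2 * k)) * (c₀ / 2 * (r * V)) =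
        c₀ / (8 * 2 ^ (2 * k)) * (2 * V / T ^ (2 * k)) := by
      rw [mul_pow]
      field_simp
      ring
    rw [e1]
    apply mul_le_mul_of_nonneg_left _ (by positivity)
    rw [le_div_iff₀ (by positivity)]
    linarith
  calc ENNReal.ofReal (c₀ / (8 * 2 ^ (2 * k)) * JJ k T U (1 / 2))
      ≤ ENNReal.ofReal (1 / (2 * r * (2 * T) ^ (2 * k)) * (c₀ / 2 * (r * V))) :=
        ENNReal.ofReal_le_ofReal h7
    _ = ENNReal.ofReal (1 / (2 * r * (2 * T) ^ (2 * k))) *
          (ENNReal.ofReal (c₀ / 2) * ENNReal.ofReal (r * V)) := by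
        rw [← ENNReal.ofReal_mul (by positivity), ← ENNReal.ofReal_mul (by positivity)]
    _ ≤ ENNReal.ofReal (1 / (2 * r * (2 * T) ^ (2 * k))) *
          (ENNReal.ofReal (2 * r) * (ENNReal.ofReal ((2 * T) ^ (2 * k)) *
            ∫⁻ t in E, ENNReal.ofReal (‖riemannZeta (cp t)‖ ^ (2 * k) * wt T U t))) := by
        refine mul_le_mul' le_rfl (h4.trans (mul_le_mul' le_rfl h5))
    _ = _ := by
        rw [← mul_assoc, ← mul_assoc, ← ENNReal.ofReal_mul (by positivity),
          ← ENNReal.ofReal_mul (by positivity)]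
        have : 1 / (2 * r * (2 * T) ^ (2 * k)) * (2 * r) * (2 * T) ^ (2 * k) = 1 := by
          field_simp
        rw [this, ENNReal.ofReal_one, one_mul]

end Pool.Agent.Q80.ZM
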