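import Pool.Agent.H370R2.Local
import Pool.Agent.Helper242.RK.Harnack

/-!
Local lemmas for analytic functions on discs.
-/

set_option autoImplicit false

open Complex Filter Topology Set MeasureTheory Metric

namespace Pool.Agent.Q80.ZM

open H370 H370.Loc

/-- integrability of the logarithm on the real segment -/
lemma lii {f : ℂ → ℂ} (hf : ∀ x : ℝ, x ∈ Icc (-1 : ℝ) 1 → AnalyticAt ℂ f x) :
    IntervalIntegrable (fun x : ℝ => Real.log ‖f x‖) volume (-1) 1 := by
  have h : MeromorphicOn (fun x : ℝ => f (x : ℂ)) (uIcc (-1 : ℝ) 1) := by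
    intro x hx
    rw [uIcc_of_le (by norm_num)] at hx
    have h1 : AnalyticAt ℝ f (x : ℂ) := (hf x hx).restrictScalars
    have h2 : AnalyticAt ℝ (fun x : ℝ => (x : ℂ)) x := Complex.ofRealCLM.analyticAt x
    exact (AnalyticAt.comp (g := f) (f := fun x : ℝ => (x : ℂ)) h1 h2).meromorphicAt
  exact h.intervalIntegrable_log_norm

lemma xlogx {x : ℝ} (h : |x| ≤ 5) : |x * Real.log x| ≤ 25 := by
  rcases le_or_gt |x| 1 with h1 | h1
  · rcases eq_or_ne x 0 with rfl | h0
    · simp
    · have h2 := Real.abs_log_mul_self_lt |x| (abs_pos.2 h0) h1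
      rw [Real.log_abs, mul_comm, abs_mul, abs_abs] at h2
      rw [abs_mul]
      linarith
  · have h2 : 0 ≤ Real.log |x| := Real.log_nonneg h1.le
    have h3 : Real.log |x| ≤ |x| - 1 := Real.log_le_sub_one_of_pos (by linarith)
    rw [abs_mul, ← Real.log_abs x, abs_of_nonneg h2]
    nlinarith

lemma log_one {a : ℝ} (ha : |a| ≤ 4) : -60 ≤ ∫ x in (-1 : ℝ)..1, Real.log (x - a) := by
  have e := intervalIntegral.integral_comp_sub_right (a := -1) (b := 1) (fun x => Real.log x) a
  rw [e, integral_log]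
  have h := abs_le.1 ha
  have h1 := abs_le.1 (xlogx (x := 1 - a) (by rw [abs_le]; constructor <;> linarith))
  have h2 := abs_le.1 (xlogx (x := -1 - a) (by rw [abs_le]; constructor <;> linarith))
  linarith

lemma log_one_int (a : ℝ) : IntervalIntegrable (fun x : ℝ => Real.log (x - a)) volume (-1) 1 := by
  have h : IntervalIntegrable Real.log volume (-1 - a) (1 - a) :=
    intervalIntegral.intervalIntegrable_log'
  exact (h.comp_sub_right a).mono_set (by simp)

lemma log_rho {ρ : ℂ} (hρ : |ρ.re| ≤ 4) : -60 ≤ ∫ x in (-1 : ℝ)..1, Real.log ‖(x : ℂ) - ρ‖ := by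
  refine (log_one hρ).trans ?_
  refine intervalIntegral.integral_mono_ae (by norm_num) (log_one_int _)
    (lii (f := fun z => z - ρ) fun x _ => by fun_prop) ?_
  have h0 : ∀ᵐ x : ℝ, x ≠ ρ.re := by
    have : volume ({ρ.re} : Set ℝ) = 0 := by simp
    exact (measure_eq_zero_iff_ae_notMem.1 this).mono fun x hx => by simpa using hx
  filter_upwards [h0] with x hx
  rw [← Real.log_abs]
  refine Real.log_le_log (abs_pos.2 (sub_ne_zero.2 hx)) ?_
  have := Complex.abs_re_le_norm ((x : ℂ) - ρ)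
  simpa using this

lemma logPf (s : Multiset ℂ) (h : ∀ ρ ∈ s, |ρ.re| ≤ 4) :
    -(60 * (Multiset.card s : ℝ)) ≤ (∫ x in (-1 : ℝ)..1, Real.log ‖Pf s x‖) ∧
      ∀ᵐ x : ℝ, Pf s (x : ℂ) ≠ 0 := by
  induction s using Multiset.induction_on with
  | empty => simp [Pf_zero]
  | cons ρ s ih =>
    obtain ⟨h1, h2⟩ := ih fun ρ' h' => h ρ' (Multiset.mem_cons_of_mem h')
    have h3 := log_rho (h ρ (Multiset.mem_cons_self ρ s))
    have h0 : ∀ᵐ x : ℝ, (x : ℂ) - ρ ≠ 0 := by
      have : volume ({ρ.re} : Set ℝ) = 0 := by simp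
      refine (measure_eq_zero_iff_ae_notMem.1 this).mono fun x hx hcon => hx ?_
      have := congrArg Complex.re hcon
      simp at this
      simp only [mem_singleton_iff]
      linarith
    have i1 := lii (f := fun z => z - ρ) fun x _ => by fun_prop
    have i2 := lii (f := Pf s) fun x _ => (Pf_diff s).analyticAt x
    refine ⟨?_, ?_⟩
    · have e : ∫ x in (-1 : ℝ)..1, Real.log ‖Pf (ρ ::ₘ s) x‖ =
          ∫ x in (-1 : ℝ)..1, (Real.log ‖(x : ℂ) - ρ‖ + Real.log ‖Pf s x‖) := by
        refine intervalIntegral.integral_congr_ae ?_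
        filter_upwards [h0, h2] with x hx hx2 _
        rw [Pf_cons, norm_mul, Real.log_mul (norm_ne_zero_iff.2 hx) (norm_ne_zero_iff.2 hx2)]
      rw [e, intervalIntegral.integral_add i1 i2, Multiset.card_cons]
      push_cast
      linarith
    · filter_upwards [h0, h2] with x hx hx2
      rw [Pf_cons]
      exact mul_ne_zero hx hx2

end Pool.Agent.Q80.ZM
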