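import Pool.Agent.Q80.ZM.Loc

/-!
Lower bound for the integral of the logarithm.
-/

set_option autoImplicit false

open Complex Filter Topology Set MeasureTheory Metric

namespace Pool.Agent.Q80.ZM

open H370 H370.Loc

lemma sphere_max {g : ℂ → ℂ} {c : ℂ} {R M : ℝ} (hR : 0 < R) (hg : AnalyticOnNhd ℂ g (closedBall c R))
    (h : ∀ z ∈ sphere c R, ‖g z‖ ≤ M) {z : ℂ} (hz : z ∈ closedBall c R) : ‖g z‖ ≤ M := by
  have hd : DiffContOnCl ℂ g (ball c R) := by
    refine DifferentiableOn.diffContOnCl ?_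
    rw [closure_ball c hR.ne']
    exact hg.differentiableOn
  refine Complex.norm_le_of_forall_mem_frontier_norm_le isBounded_ball hd (fun w hw => ?_)
    (by rwa [closure_ball c hR.ne'])
  rw [frontier_ball c hR.ne'] at hw
  exact h w hw

/-- the constant of the local lower bound -/
noncomputable def CL (M : ℝ) : ℝ :=
  60 * Real.log M + 2 * (2 * Real.log M + 1 + 6 * (3 * Real.log M + 1))

theorem log_low {M : ℝ} (hM : 1 ≤ M) {f : ℂ → ℂ} (hf : AnalyticOnNhd ℂ f (closedBall 0 13))
    (hb : ∀ z ∈ closedBall (0 : ℂ) 13, ‖f z‖ ≤ M) {x₀ : ℝ} (hx : x₀ ∈ Icc (-1 : ℝ) 1)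
    (h1 : 1 ≤ ‖f x₀‖) :
    -CL M ≤ (∫ x in (-1 : ℝ)..1, Real.log ‖f x‖) ∧ ∀ᵐ x : ℝ, x ∈ Icc (-1 : ℝ) 1 → f x ≠ 0 := by
  have hx1 : |x₀| ≤ 1 := abs_le.2 hx
  have hsub : closedBall (x₀ : ℂ) 12 ⊆ closedBall 0 13 := by
    intro z hz
    rw [mem_closedBall, dist_eq_norm] at hz ⊢
    calc ‖z - 0‖ = ‖(z - x₀) + x₀‖ := by congr 1; ring
      _ ≤ ‖z - x₀‖ + ‖(x₀ : ℂ)‖ := norm_add_le _ _
      _ ≤ 12 + 1 := by
          refine add_le_add hz ?_
          rwa [Complex.norm_real, Real.norm_eq_abs]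
      _ = 13 := by norm_num
  have hf0 : f x₀ ≠ 0 := by
    intro h
    rw [h, norm_zero] at h1
    linarith
  have hlM : 0 ≤ Real.log M := Real.log_nonneg hM
  obtain ⟨s, g, hs, hg, hfg, hg0, hcard⟩ := extract (f := f) (c := x₀) (r := 3) (R := 12) (M := M)
    (by norm_num) (by norm_num) hM (hf.mono hsub) hf0 fun z hz => hb z (hsub hz)
  set n := Multiset.card s with hn
  have hn1 : (n : ℝ) ≤ Real.log M := by
    refine hcard.trans ?_
    have e4 : (12 : ℝ) / 3 = 4 := by norm_num
    rw [e4]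
    have h4 : 1 ≤ Real.log 4 := by
      rw [Real.le_log_iff_exp_le (by norm_num)]
      linarith [Real.exp_one_lt_d9]
    have h5 : Real.log (M / ‖f x₀‖) ≤ Real.log M :=
      Real.log_le_log (by positivity) (div_le_self (by linarith) h1)
    rw [div_le_iff₀ (by linarith)]
    nlinarith
  -- bounds for g
  have hgM : ∀ z ∈ closedBall (x₀ : ℂ) 12, ‖g z‖ ≤ M := by
    intro z hz
    refine sphere_max (by norm_num) hg (fun w hw => ?_) hz
    have h3 : (1 : ℝ) ≤ ‖Pf s w‖ := by
      have h4 := Pf_norm_ge (s := s) (z := w) (a := 9) (by norm_num) fun ρ hρ => by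
        have h5 := (hs ρ hρ).1
        rw [mem_closedBall, dist_eq_norm] at h5
        rw [mem_sphere, dist_eq_norm] at hw
        have h6 : ‖w - x₀‖ ≤ ‖w - ρ‖ + ‖ρ - x₀‖ := by
          have := norm_add_le (w - ρ) (ρ - x₀)
          rwa [sub_add_sub_cancel] at this
        linarith
      exact (one_le_pow₀ (by norm_num)).trans h4
    have h7 := hb w (hsub (sphere_subset_closedBall hw))
    rw [hfg w, norm_mul] at h7
    nlinarith [norm_nonneg (g w)]
  have hgx : Real.exp (-(2 * Real.log M + 1)) ≤ ‖g x₀‖ := by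
    have h3 : ‖Pf s x₀‖ ≤ Real.exp (2 * Real.log M) := by
      have h4 := Pf_norm_le (s := s) (z := x₀) (a := 3) fun ρ hρ => by
        have h5 := (hs ρ hρ).1
        rw [mem_closedBall, dist_eq_norm, norm_sub_rev] at h5
        exact h5
      refine h4.trans ?_
      have h8 : (3 : ℝ) ≤ Real.exp 2 := by
        have := Real.add_one_le_exp (2 : ℝ)
        linarith
      calc (3 : ℝ) ^ n ≤ Real.exp 2 ^ n := by gcongr
        _ = Real.exp (2 * n) := by rw [← Real.exp_nat_mul]; ring_nf
        _ ≤ _ := Real.exp_le_exp.2 (by linarith)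
    have h9 : 1 ≤ Real.exp (2 * Real.log M) * ‖g x₀‖ := by
      have h10 := h1
      rw [hfg x₀, norm_mul] at h10
      exact h10.trans (mul_le_mul_of_nonneg_right h3 (norm_nonneg _))
    have h11 : Real.exp (-(2 * Real.log M + 1)) ≤ Real.exp (-(2 * Real.log M)) :=
      Real.exp_le_exp.2 (by linarith)
    refine h11.trans ?_
    rw [Real.exp_neg, inv_le_iff_one_le_mul₀ (Real.exp_pos _), mul_comm]
    exact h9
  have hlow : ∀ x ∈ Icc (-1 : ℝ) 1, Real.exp (-(2 * Real.log M + 1 + 6 * (3 * Real.log M + 1))) ≤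
      ‖g x‖ := by
    intro x hx'
    have h2 : ‖(x : ℂ) - x₀‖ ≤ 2 := by
      rw [← Complex.ofReal_sub, Complex.norm_real, Real.norm_eq_abs, abs_le]
      constructor <;> linarith [hx.1, hx.2, hx'.1, hx'.2]
    have key := Pool.Agent.Helper242.RK.harnack (f := g) (c := x₀) (r := 3)
      (M1 := Real.log M) (M2 := 2 * Real.log M + 1) (by norm_num)
      (fun z hz => (hg z (closedBall_subset_closedBall (by norm_num)
        (ball_subset_closedBall hz))).differentiableAt.differentiableWithinAt)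
      (fun z hz => hg0 z (ball_subset_closedBall hz))
      (fun z hz => by
        rw [Real.exp_log (by linarith)]
        exact hgM z (closedBall_subset_closedBall (by norm_num) (ball_subset_closedBall hz)))
      hgx (by linarith) (z := x) (by rw [mem_ball, dist_eq_norm]; linarith)
    refine le_trans (Real.exp_le_exp.2 ?_) key
    have h3 : (1 : ℝ) ≤ 3 - ‖(x : ℂ) - x₀‖ := by linarith
    have h4 : 2 * (Real.log M + (2 * Real.log M + 1)) * 3 / (3 - ‖(x : ℂ) - x₀‖) ≤
        2 * (Real.log M + (2 * Real.log M + 1)) * 3 :=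
      div_le_self (by positivity) h3
    linarith
  -- the integral
  obtain ⟨p1, p2⟩ := logPf s fun ρ hρ => by
    have h5 := (hs ρ hρ).1
    rw [mem_closedBall, dist_eq_norm] at h5
    have h6 := (Complex.abs_re_le_norm (ρ - x₀)).trans h5
    simp only [sub_re, ofReal_re] at h6
    have := abs_le.1 h6
    rw [abs_le]
    constructor <;> linarith [hx.1, hx.2]
  have hg1 : ∀ x ∈ Icc (-1 : ℝ) 1, g x ≠ 0 := fun x hx' h => by
    have := hlow x hx'
    rw [h, norm_zero] at this
    linarith [Real.exp_pos (-(2 * Real.log M + 1 + 6 * (3 * Real.log M + 1)))]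
  have hmem : ∀ x ∈ Icc (-1 : ℝ) 1, (x : ℂ) ∈ closedBall (0 : ℂ) 13 := fun x hx' => by
    rw [mem_closedBall, dist_zero_right, Complex.norm_real, Real.norm_eq_abs]
    have := abs_le.2 hx'
    linarith
  constructor
  · have i1 := lii (f := Pf s) fun x _ => (Pf_diff s).analyticAt x
    have i2 := lii (f := f) fun x hx' => hf x (hmem x hx')
    have i3 : IntervalIntegrable (fun x : ℝ => Real.log ‖Pf s x‖ -
        (2 * Real.log M + 1 + 6 * (3 * Real.log M + 1))) volume (-1) 1 :=
      i1.sub intervalIntegrable_const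
    have h3 : ∫ x in (-1 : ℝ)..1, (Real.log ‖Pf s x‖ -
        (2 * Real.log M + 1 + 6 * (3 * Real.log M + 1))) ≤ ∫ x in (-1 : ℝ)..1, Real.log ‖f x‖ := by
      refine intervalIntegral.integral_mono_ae_restrict (by norm_num) i3 i2 ?_
      rw [EventuallyLE, ae_restrict_iff' measurableSet_Icc]
      filter_upwards [p2] with x hx2 hx'
      rw [hfg x, norm_mul, Real.log_mul (norm_ne_zero_iff.2 hx2) (norm_ne_zero_iff.2 (hg1 x hx'))]
      have h4 := Real.log_le_log (Real.exp_pos _) (hlow x hx')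
      rw [Real.log_exp] at h4
      linarith
    rw [intervalIntegral.integral_sub i1 intervalIntegrable_const,
      intervalIntegral.integral_const] at h3
    simp only [smul_eq_mul] at h3
    unfold CL
    have h5 : 60 * (n : ℝ) ≤ 60 * Real.log M := by linarith
    linarith
  · filter_upwards [p2] with x hx2 hx'
    rw [hfg x]
    exact mul_ne_zero hx2 (hg1 x hx')

end Pool.Agent.Q80.ZM
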