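import Pool.Agent.Q80.ZM.Loc2

/-!
Consequences of the lower bound, on a general scale.
-/

set_option autoImplicit false

open Complex Filter Topology Set MeasureTheory Metric

namespace Pool.Agent.Q80.ZM

lemma CL_nonneg {M : ℝ} (hM : 1 ≤ M) : 0 ≤ CL M := by
  have := Real.log_nonneg hM
  unfold CL
  positivity

/-- the constant -/
noncomputable def cE (M γ : ℝ) : ℝ := Real.exp (-((2 * CL M + 4 * Real.log M) / γ)) * γ

lemma ineq_exp {u m : ℝ} (hu : 0 < u) : Real.exp (-m) * (1 + m + Real.log u) ≤ u := by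
  have h := Real.log_le_sub_one_of_pos (mul_pos hu (Real.exp_pos m))
  rw [Real.log_mul hu.ne' (Real.exp_pos m).ne', Real.log_exp] at h
  calc Real.exp (-m) * (1 + m + Real.log u) ≤ Real.exp (-m) * (u * Real.exp m) := by
        apply mul_le_mul_of_nonneg_left _ (Real.exp_pos _).le
        linarith
    _ = u * (Real.exp m * Real.exp (-m)) := by ring
    _ = u := by rw [← Real.exp_add]; simp

lemma bdd_ii {χ : ℝ → ℝ} (mχ : Measurable χ) (χ0 : ∀ x, 0 ≤ χ x) (χ1 : ∀ x, χ x ≤ 1) {g : ℝ → ℝ}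
    {a b : ℝ} (hg : IntervalIntegrable g volume a b) :
    IntervalIntegrable (fun x => χ x * g x) volume a b := by
  have h : ∀ s : Set ℝ, IntegrableOn g s → IntegrableOn (fun x => χ x * g x) s := fun s hs =>
    Integrable.bdd_mul hs mχ.aestronglyMeasurable
      (Eventually.of_forall fun x => by rw [Real.norm_of_nonneg (χ0 x)]; exact χ1 x)
  exact ⟨h _ hg.1, h _ hg.2⟩

theorem wt_low {M γ : ℝ} (hM : 1 ≤ M) (hγ : 0 < γ) {f : ℂ → ℂ}
    (hf : AnalyticOnNhd ℂ f (closedBall 0 13))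
    (hb : ∀ z ∈ closedBall (0 : ℂ) 13, ‖f z‖ ≤ M) {x₀ : ℝ} (hx : x₀ ∈ Icc (-1 : ℝ) 1)
    (h1 : 1 ≤ ‖f x₀‖) {χ : ℝ → ℝ} (mχ : Measurable χ) (χ0 : ∀ x, 0 ≤ χ x) (χ1 : ∀ x, χ x ≤ 1)
    (hχ : γ ≤ ∫ x in (-1 : ℝ)..1, χ x) :
    cE M γ ≤ ∫ x in (-1 : ℝ)..1, χ x * ‖f x‖ ^ 2 := by
  obtain ⟨l1, l2⟩ := log_low hM hf hb hx h1
  have hmem : ∀ x ∈ Icc (-1 : ℝ) 1, (x : ℂ) ∈ closedBall (0 : ℂ) 13 := fun x hx' => by
    rw [mem_closedBall, dist_zero_right, Complex.norm_real, Real.norm_eq_abs]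
    have := abs_le.2 hx'
    linarith
  have i2 := lii (f := f) fun x hx' => hf x (hmem x hx')
  have hlM : 0 ≤ Real.log M := Real.log_nonneg hM
  have hCL := CL_nonneg hM
  set m := (2 * CL M + 4 * Real.log M) / γ with hm
  have hm0 : 0 ≤ m := by positivity
  have cf : ContinuousOn (fun x : ℝ => ‖f x‖ ^ 2) (uIcc (-1) 1) := by
    rw [uIcc_of_le (by norm_num)]
    refine ContinuousOn.pow (ContinuousOn.norm ?_) 2
    exact hf.continuousOn.comp Complex.continuous_ofReal.continuousOn fun x hx' => hmem x hx'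
  have iχ : IntervalIntegrable χ volume (-1) 1 := by
    have := bdd_ii mχ χ0 χ1 (a := -1) (b := 1) (g := fun _ => (1 : ℝ)) intervalIntegrable_const
    simpa using this
  have i3 : IntervalIntegrable (fun x : ℝ => Real.log ‖f x‖ - Real.log M) volume (-1) 1 :=
    i2.sub intervalIntegrable_const
  have i4 := bdd_ii mχ χ0 χ1 i3
  have i5 : IntervalIntegrable (fun x => χ x * ‖f x‖ ^ 2) volume (-1) 1 :=
    bdd_ii mχ χ0 χ1 cf.intervalIntegrable
  have i6 : IntervalIntegrable (fun x => Real.exp (-m) * ((1 + m) * χ x +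
      2 * (χ x * (Real.log ‖f x‖ - Real.log M)))) volume (-1) 1 :=
    ((iχ.const_mul _).add (i4.const_mul _)).const_mul _
  have h2 : ∫ x in (-1 : ℝ)..1, Real.exp (-m) * ((1 + m) * χ x +
      2 * (χ x * (Real.log ‖f x‖ - Real.log M))) ≤ ∫ x in (-1 : ℝ)..1, χ x * ‖f x‖ ^ 2 := by
    refine intervalIntegral.integral_mono_ae_restrict (by norm_num) i6 i5 ?_
    rw [EventuallyLE, ae_restrict_iff' measurableSet_Icc]
    filter_upwards [l2] with x hx2 hx'
    have hf0 : 0 < ‖f x‖ := norm_pos_iff.2 (hx2 hx')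
    have h3 := ineq_exp (u := ‖f x‖ ^ 2 / M ^ 2) (m := m) (by positivity)
    have h4 : Real.log (‖f x‖ ^ 2 / M ^ 2) = 2 * (Real.log ‖f x‖ - Real.log M) := by
      rw [Real.log_div (by positivity) (by positivity), Real.log_pow, Real.log_pow]
      push_cast
      ring
    rw [h4] at h3
    have h5 : ‖f x‖ ^ 2 / M ^ 2 ≤ ‖f x‖ ^ 2 := div_le_self (by positivity) (by nlinarith)
    calc Real.exp (-m) * ((1 + m) * χ x + 2 * (χ x * (Real.log ‖f x‖ - Real.log M)))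
        = χ x * (Real.exp (-m) * (1 + m + 2 * (Real.log ‖f x‖ - Real.log M))) := by ring
      _ ≤ χ x * ‖f x‖ ^ 2 := mul_le_mul_of_nonneg_left (h3.trans h5) (χ0 x)
  have h6 : ∫ x in (-1 : ℝ)..1, (Real.log ‖f x‖ - Real.log M) ≤
      ∫ x in (-1 : ℝ)..1, χ x * (Real.log ‖f x‖ - Real.log M) := by
    refine intervalIntegral.integral_mono_ae_restrict (by norm_num) i3 i4 ?_
    rw [EventuallyLE, ae_restrict_iff' measurableSet_Icc]
    filter_upwards [l2] with x hx2 hx'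
    have hf0 : 0 < ‖f x‖ := norm_pos_iff.2 (hx2 hx')
    have h7 : Real.log ‖f x‖ ≤ Real.log M := Real.log_le_log hf0 (hb x (hmem x hx'))
    nlinarith [χ0 x, χ1 x]
  rw [intervalIntegral.integral_const_mul, intervalIntegral.integral_add (iχ.const_mul _)
    (i4.const_mul _), intervalIntegral.integral_const_mul, intervalIntegral.integral_const_mul] at h2
  rw [intervalIntegral.integral_sub i2 intervalIntegrable_const,
    intervalIntegral.integral_const] at h6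
  simp only [smul_eq_mul] at h6
  refine le_trans ?_ h2
  unfold cE
  rw [← hm]
  apply mul_le_mul_of_nonneg_left _ (Real.exp_pos _).le
  have h8 : m * γ = 2 * CL M + 4 * Real.log M := by
    rw [hm]; field_simp
  have h9 : (1 + m) * γ ≤ (1 + m) * ∫ x in (-1 : ℝ)..1, χ x :=
    mul_le_mul_of_nonneg_left hχ (by linarith)
  nlinarith

/-- the vertical line through `1/2` -/
noncomputable def cp (t : ℝ) : ℂ := 1 / 2 + t * I

/-- the rescaled function -/
noncomputable def resc (F : ℂ → ℂ) (y r D : ℝ) (z : ℂ) : ℂ :=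
  ((Real.sqrt D)⁻¹ : ℝ) * F (cp y + (r : ℂ) * I * z)

lemma resc_real (F : ℂ → ℂ) (y r : ℝ) {D : ℝ} (hD : 0 < D) (x : ℝ) :
    ‖resc F y r D x‖ ^ 2 = ‖F (cp (y + r * x))‖ ^ 2 / D := by
  have e : cp y + (r : ℂ) * I * x = cp (y + r * x) := by
    unfold cp; push_cast; ring
  unfold resc
  rw [e, norm_mul, mul_pow, Complex.norm_real, norm_inv, inv_pow, Real.norm_eq_abs, sq_abs,
    Real.sq_sqrt hD.le]
  field_simp

section scaled

variable {F : ℂ → ℂ} {y r D K : ℝ}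

lemma resc_props (hr : 0 < r) (hF : AnalyticOnNhd ℂ F (closedBall (cp y) (13 * r))) (hD : 0 < D)
    (hK : 1 ≤ K)
    (hb : ∀ z ∈ closedBall (cp y) (13 * r), ‖F z‖ ^ 2 ≤ K * D) :
    AnalyticOnNhd ℂ (resc F y r D) (closedBall 0 13) ∧
      ∀ z ∈ closedBall (0 : ℂ) 13, ‖resc F y r D z‖ ≤ Real.sqrt K := by
  have hm : ∀ z ∈ closedBall (0 : ℂ) 13, cp y + (r : ℂ) * I * z ∈ closedBall (cp y) (13 * r) := by
    intro z hz
    rw [mem_closedBall, dist_zero_right] at hz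
    rw [mem_closedBall, dist_eq_norm, add_sub_cancel_left, norm_mul, norm_mul, Complex.norm_I,
      mul_one, Complex.norm_real, Real.norm_of_nonneg hr.le]
    nlinarith
  constructor
  · intro z hz
    have h1 := hF _ (hm z hz)
    have h2 : AnalyticAt ℂ (fun z : ℂ => cp y + (r : ℂ) * I * z) z := by fun_prop
    have h3 := AnalyticAt.comp (g := F) (f := fun z : ℂ => cp y + (r : ℂ) * I * z) h1 h2
    exact (analyticAt_const (v := (((Real.sqrt D)⁻¹ : ℝ) : ℂ))).mul h3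
  · intro z hz
    have h1 := hb _ (hm z hz)
    refine Real.le_sqrt_of_sq_le ?_
    unfold resc
    rw [norm_mul, mul_pow, Complex.norm_real, norm_inv, inv_pow, Real.norm_eq_abs, sq_abs,
      Real.sq_sqrt hD.le, inv_mul_le_iff₀ hD]
    linarith

theorem scaled_log (hr : 0 < r) (hF : AnalyticOnNhd ℂ F (closedBall (cp y) (13 * r))) (hD : 0 < D)
    (hK : 1 ≤ K) (hb : ∀ z ∈ closedBall (cp y) (13 * r), ‖F z‖ ^ 2 ≤ K * D) {u₀ : ℝ}
    (hu : |u₀ - y| ≤ r) (h1 : D ≤ ‖F (cp u₀)‖ ^ 2) :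
    2 * r * (Real.log D - CL (Real.sqrt K)) ≤
      ∫ u in (y - r)..(y + r), Real.log (‖F (cp u)‖ ^ 2) := by
  obtain ⟨p1, p2⟩ := resc_props hr hF hD hK hb
  have hx : (u₀ - y) / r ∈ Icc (-1 : ℝ) 1 := by
    refine abs_le.1 ?_
    rw [abs_div, abs_of_pos hr, div_le_one hr]
    exact hu
  have e0 : y + r * ((u₀ - y) / r) = u₀ := by field_simp; ring
  have hx1 : 1 ≤ ‖resc F y r D ((u₀ - y) / r : ℝ)‖ := by
    have h2 := resc_real F y r hD ((u₀ - y) / r)
    rw [e0] at h2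
    have h3 : 1 ≤ ‖resc F y r D ((u₀ - y) / r : ℝ)‖ ^ 2 := by
      rw [h2, le_div_iff₀ hD]
      linarith
    by_contra h4
    push Not at h4
    nlinarith [norm_nonneg (resc F y r D ((u₀ - y) / r : ℝ))]
  obtain ⟨l1, l2⟩ := log_low (Real.one_le_sqrt.2 hK) p1 p2 hx hx1
  have hmem : ∀ x ∈ Icc (-1 : ℝ) 1, (x : ℂ) ∈ closedBall (0 : ℂ) 13 := fun x hx' => by
    rw [mem_closedBall, dist_zero_right, Complex.norm_real, Real.norm_eq_abs]
    have := abs_le.2 hx'
    linarith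
  have i1 := lii (f := resc F y r D) fun x hx' => p1 x (hmem x hx')
  have e1 : ∫ x in (-1 : ℝ)..1, Real.log (‖F (cp (y + r * x))‖ ^ 2) =
      ∫ x in (-1 : ℝ)..1, (Real.log D + 2 * Real.log ‖resc F y r D x‖) := by
    refine intervalIntegral.integral_congr_ae ?_
    filter_upwards [l2] with x hx2 hx'
    rw [uIoc_of_le (by norm_num)] at hx'
    have hx3 : 0 < ‖resc F y r D x‖ := norm_pos_iff.2 (hx2 ⟨hx'.1.le, hx'.2⟩)
    have h5 : ‖F (cp (y + r * x))‖ ^ 2 = D * ‖resc F y r D x‖ ^ 2 := by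
      rw [resc_real F y r hD x]; field_simp
    rw [h5, Real.log_mul hD.ne' (by positivity), Real.log_pow]
    push_cast
    ring
  have e2 := intervalIntegral.integral_comp_add_mul (a := -1) (b := 1)
    (fun u => Real.log (‖F (cp u)‖ ^ 2)) hr.ne' y
  rw [e1, intervalIntegral.integral_add intervalIntegrable_const (i1.const_mul 2),
    intervalIntegral.integral_const, intervalIntegral.integral_const_mul] at e2
  have e3 : y + r * -1 = y - r := by ring
  have e4 : y + r * 1 = y + r := by ring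
  rw [e3, e4] at e2
  simp only [smul_eq_mul] at e2
  have e5 : ∫ u in (y - r)..(y + r), Real.log (‖F (cp u)‖ ^ 2) =
      r * ((1 - -1) * Real.log D + 2 * ∫ x in (-1 : ℝ)..1, Real.log ‖resc F y r D x‖) := by
    rw [e2]; field_simp
  rw [e5]
  have : 2 * r * (Real.log D - CL (Real.sqrt K)) =
      r * ((1 - -1) * Real.log D + 2 * (-CL (Real.sqrt K))) := by ring
  rw [this]
  apply mul_le_mul_of_nonneg_left _ hr.le
  linarith

theorem scaled_set (hr : 0 < r) (hF : AnalyticOnNhd ℂ F (closedBall (cp y) (13 * r))) (hD : 0 < D)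
    (hK : 1 ≤ K) (hb : ∀ z ∈ closedBall (cp y) (13 * r), ‖F z‖ ^ 2 ≤ K * D) {u₀ : ℝ}
    (hu : |u₀ - y| ≤ r) (h1 : D ≤ ‖F (cp u₀)‖ ^ 2) {γ : ℝ} (hγ : 0 < γ) {χ : ℝ → ℝ}
    (mχ : Measurable χ) (χ0 : ∀ x, 0 ≤ χ x) (χ1 : ∀ x, χ x ≤ 1)
    (hχ : γ * r ≤ ∫ u in (y - r)..(y + r), χ u) :
    cE (Real.sqrt K) γ * r * D ≤ ∫ u in (y - r)..(y + r), χ u * ‖F (cp u)‖ ^ 2 := by
  obtain ⟨p1, p2⟩ := resc_props hr hF hD hK hb
  have hx : (u₀ - y) / r ∈ Icc (-1 : ℝ) 1 := by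
    refine abs_le.1 ?_
    rw [abs_div, abs_of_pos hr, div_le_one hr]
    exact hu
  have e0 : y + r * ((u₀ - y) / r) = u₀ := by field_simp; ring
  have hx1 : 1 ≤ ‖resc F y r D ((u₀ - y) / r : ℝ)‖ := by
    have h2 := resc_real F y r hD ((u₀ - y) / r)
    rw [e0] at h2
    have h3 : 1 ≤ ‖resc F y r D ((u₀ - y) / r : ℝ)‖ ^ 2 := by
      rw [h2, le_div_iff₀ hD]
      linarith
    by_contra h4
    push Not at h4
    nlinarith [norm_nonneg (resc F y r D ((u₀ - y) / r : ℝ))]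
  have e3 : y + r * -1 = y - r := by ring
  have e4 : y + r * 1 = y + r := by ring
  have e6 := intervalIntegral.integral_comp_add_mul (a := -1) (b := 1) χ hr.ne' y
  rw [e3, e4] at e6
  simp only [smul_eq_mul] at e6
  have hχ' : γ ≤ ∫ x in (-1 : ℝ)..1, χ (y + r * x) := by
    rw [e6, ← div_eq_inv_mul, le_div_iff₀ hr]
    exact hχ
  have key := wt_low (Real.one_le_sqrt.2 hK) hγ p1 p2 hx hx1 (χ := fun x => χ (y + r * x))
    (mχ.comp (by fun_prop)) (fun x => χ0 _) (fun x => χ1 _) hχ'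
  have e1 : ∫ x in (-1 : ℝ)..1, χ (y + r * x) * ‖resc F y r D x‖ ^ 2 =
      D⁻¹ * ∫ x in (-1 : ℝ)..1, χ (y + r * x) * ‖F (cp (y + r * x))‖ ^ 2 := by
    rw [← intervalIntegral.integral_const_mul]
    refine intervalIntegral.integral_congr fun x _ => ?_
    show χ (y + r * x) * ‖resc F y r D x‖ ^ 2 = D⁻¹ * (χ (y + r * x) * ‖F (cp (y + r * x))‖ ^ 2)
    rw [resc_real F y r hD x]
    field_simp
  have e2 := intervalIntegral.integral_comp_add_mul (a := -1) (b := 1)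
    (fun u => χ u * ‖F (cp u)‖ ^ 2) hr.ne' y
  rw [e3, e4] at e2
  simp only [smul_eq_mul] at e2
  rw [e1, e2] at key
  have h7 : D⁻¹ * (r⁻¹ * ∫ u in (y - r)..(y + r), χ u * ‖F (cp u)‖ ^ 2) =
      (∫ u in (y - r)..(y + r), χ u * ‖F (cp u)‖ ^ 2) / (r * D) := by
    field_simp
  rw [h7, le_div_iff₀ (by positivity)] at key
  linarith

end scaled

end Pool.Agent.Q80.ZM
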