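import Pool.Agent.Q80.ZM.Loc3

/-!
Zeros and maxima.
-/

set_option autoImplicit false

open Complex Filter Topology Set MeasureTheory Metric

namespace Pool.Agent.Q80.ZM

open H370 H370.Loc

/-- number of zeros with multiplicity in a set -/
noncomputable def zc (f : ℂ → ℂ) (K : Set ℂ) : ℕ := ∑ᶠ z ∈ K, analyticOrderNatAt f z

lemma mult_scale {f : ℂ → ℂ} {z a : ℂ} (ha : a ≠ 0) (hf : AnalyticAt ℂ f z) :
    mult (fun w => a * f w) z = mult f z := by
  unfold mult analyticOrderNatAt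
  have h1 : analyticOrderAt (fun _ : ℂ => a) z = 0 :=
    (analyticAt_const (v := a)).analyticOrderAt_eq_zero.2 ha
  have h2 := analyticOrderAt_mul (analyticAt_const (v := a) (x := z) (𝕜 := ℂ)) hf
  have h3 : (fun w => a * f w) = (fun _ : ℂ => a) * f := rfl
  rw [h3, h2, h1, zero_add]

lemma zeros_fin {f : ℂ → ℂ} {c s₀ : ℂ} {r B M : ℝ} (hr : 0 < r) (hB : 1 < B)
    (hf : AnalyticOnNhd ℂ f (closedBall c ((2 * B + 1) * r)))
    (hb : ∀ z ∈ closedBall c ((2 * B + 1) * r), ‖f z‖ ≤ M) (hs : s₀ ∈ closedBall c r)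
    (h0 : f s₀ ≠ 0) (S : Finset ℂ) (hS : ∀ z ∈ S, z ∈ closedBall c r) :
    B ^ (∑ z ∈ S, mult f z) * ‖f s₀‖ ≤ M := by
  rw [mem_closedBall, dist_eq_norm] at hs
  have hsub : closedBall s₀ (2 * r * B) ⊆ closedBall c ((2 * B + 1) * r) := by
    intro z hz
    rw [mem_closedBall, dist_eq_norm] at hz ⊢
    have := norm_add_le (z - s₀) (s₀ - c)
    rw [sub_add_sub_cancel] at this
    linarith
  have h1 : 0 < ‖f s₀‖ := norm_pos_iff.2 h0
  have hs' : s₀ ∈ closedBall c ((2 * B + 1) * r) := by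
    apply hsub
    apply mem_closedBall_self
    nlinarith
  have hM : 1 ≤ M / ‖f s₀‖ := by
    rw [one_le_div h1]
    exact hb s₀ hs'
  have hlB : 0 < Real.log B := Real.log_pos hB
  have key := jensen_mult (f := fun w => (f s₀)⁻¹ * f w) (c := s₀) (r := 2 * r) (R := 2 * r * B)
    (M := M / ‖f s₀‖) (by positivity) (by nlinarith) hM
    (fun z hz => analyticAt_const.mul (hf z (hsub hz))) (by
      rw [inv_mul_cancel₀ h0]; exact one_ne_zero)
    (fun z hz => by
      rw [norm_mul, norm_inv, inv_mul_eq_div]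
      exact div_le_div_of_nonneg_right (hb z (hsub hz)) h1.le) S
    (fun z hz => by
      have := hS z hz
      rw [mem_closedBall, dist_eq_norm] at this ⊢
      have h2 := norm_sub_le (z - c) (s₀ - c)
      rw [sub_sub_sub_cancel_right] at h2
      linarith)
  have e1 : ∑ z ∈ S, (mult (fun w => (f s₀)⁻¹ * f w) z : ℝ) = ((∑ z ∈ S, mult f z : ℕ) : ℝ) := by
    push_cast
    refine Finset.sum_congr rfl fun z hz => ?_
    have hz' : z ∈ closedBall c ((2 * B + 1) * r) :=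
      closedBall_subset_closedBall (by nlinarith) (hS z hz)
    rw [mult_scale (inv_ne_zero h0) (hf z hz')]
  have e2 : (2 * r * B) / (2 * r) = B := by field_simp
  rw [e1, inv_mul_cancel₀ h0, norm_one, div_one, e2, le_div_iff₀ hlB] at key
  have h3 : Real.exp (((∑ z ∈ S, mult f z : ℕ) : ℝ) * Real.log B) ≤ M / ‖f s₀‖ := by
    rw [← Real.exp_log (by linarith : 0 < M / ‖f s₀‖)]
    exact Real.exp_le_exp.2 key
  rw [Real.exp_nat_mul, Real.exp_log (by linarith), le_div_iff₀ h1] at h3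
  exact h3

theorem zeros_sup {f : ℂ → ℂ} {c s₀ : ℂ} {r B M : ℝ} (hr : 0 < r) (hB : 1 < B)
    (hf : AnalyticOnNhd ℂ f (closedBall c ((2 * B + 1) * r)))
    (hb : ∀ z ∈ closedBall c ((2 * B + 1) * r), ‖f z‖ ≤ M) (hs : s₀ ∈ closedBall c r) :
    B ^ (zc f (closedBall c r)) * ‖f s₀‖ ≤ M := by
  by_cases h0 : f s₀ = 0
  · rw [h0, norm_zero, mul_zero]
    refine (norm_nonneg _).trans (hb c (mem_closedBall_self ?_))
    nlinarith
  · by_cases hfin : (closedBall c r ∩ Function.support (analyticOrderNatAt f)).Finite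
    · have h1 := zeros_fin hr hB hf hb hs h0 hfin.toFinset fun z hz => by
        rw [Set.Finite.mem_toFinset] at hz
        exact hz.1
      have e : zc f (closedBall c r) = ∑ z ∈ hfin.toFinset, mult f z :=
        finsum_mem_eq_sum _ hfin
      rw [e]
      exact h1
    · have e : zc f (closedBall c r) = 0 := finsum_mem_eq_zero_of_infinite hfin
      rw [e, pow_zero, one_mul]
      refine hb s₀ (closedBall_subset_closedBall ?_ hs)
      nlinarith

/-- the zeros in a disc form a finite set, whose cardinality `n` satisfies `2 ^ n ‖f s₀‖ ≤ M` -/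
theorem zeros_card {f : ℂ → ℂ} {c s₀ : ℂ} {r M : ℝ} (hr : 0 < r)
    (hf : AnalyticOnNhd ℂ f (closedBall c (5 * r)))
    (hb : ∀ z ∈ closedBall c (5 * r), ‖f z‖ ≤ M) (hs : s₀ ∈ closedBall c r) (h0 : f s₀ ≠ 0) :
    ∃ S : Finset ℂ, (∀ z, z ∈ S ↔ z ∈ closedBall c r ∧ f z = 0) ∧ (2 : ℝ) ^ S.card * ‖f s₀‖ ≤ M := by
  have hr5 : r ≤ 5 * r := by linarith
  have e5 : (2 * (2 : ℝ) + 1) * r = 5 * r := by ring
  have hK : IsPreconnected (closedBall c (5 * r)) := (convex_closedBall c _).isPreconnected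
  have hpos : ∀ z ∈ closedBall c r, f z = 0 → 1 ≤ mult f z := fun z hz hz0 =>
    (mult_pos hK hf (closedBall_subset_closedBall hr5 hs) h0
      (closedBall_subset_closedBall hr5 hz)).2 hz0
  have hcard : ∀ S : Finset ℂ, (∀ z ∈ S, z ∈ closedBall c r ∧ f z = 0) →
      (2 : ℝ) ^ S.card * ‖f s₀‖ ≤ M := by
    intro S hS
    have h1 := zeros_fin (B := 2) hr (by norm_num) (by rw [e5]; exact hf) (by rw [e5]; exact hb) hs
      h0 S fun z hz => (hS z hz).1
    refine le_trans (mul_le_mul_of_nonneg_right ?_ (norm_nonneg _)) h1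
    apply pow_le_pow_right₀ (by norm_num)
    rw [Finset.card_eq_sum_ones]
    exact Finset.sum_le_sum fun z hz => hpos z (hS z hz).1 (hS z hz).2
  have hfin : {z | z ∈ closedBall c r ∧ f z = 0}.Finite := by
    by_contra hinf
    have h1 : 0 < ‖f s₀‖ := norm_pos_iff.2 h0
    obtain ⟨n, hn⟩ := pow_unbounded_of_one_lt (M / ‖f s₀‖) (by norm_num : (1 : ℝ) < 2)
    obtain ⟨S, hS, hSn⟩ := Set.Infinite.exists_subset_card_eq hinf n
    have h2 := hcard S fun z hz => hS hz
    rw [hSn] at h2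
    rw [div_lt_iff₀ h1] at hn
    linarith
  refine ⟨hfin.toFinset, fun z => by rw [Set.Finite.mem_toFinset]; rfl, hcard _ fun z hz => ?_⟩
  rw [Set.Finite.mem_toFinset] at hz
  exact hz

/-- Schwarz's lemma near a zero -/
lemma near_zero {f : ℂ → ℂ} {ρ s : ℂ} {R M : ℝ} (hR : 0 < R)
    (hf : DifferentiableOn ℂ f (ball ρ R)) (hb : ∀ z ∈ ball ρ R, ‖f z‖ ≤ M) (h0 : f ρ = 0)
    (hs : s ∈ ball ρ R) : ‖f s‖ ≤ M / R * ‖s - ρ‖ := by
  have h := Complex.dist_le_div_mul_dist_of_mapsTo_ball (R₂ := M) hf (fun z hz => by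
    rw [h0, mem_closedBall, dist_zero_right]; exact hb z hz) hs
  rwa [h0, dist_zero_right, dist_eq_norm] at h

end Pool.Agent.Q80.ZM
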